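import Pool.Agent.helper811_gap.Norm

/-! A projection of norm close to one forces the gradient to be nearly linear on its range. -/

set_option autoImplicit false
set_option linter.unusedSectionVars false

open Finset

namespace H811

variable {H : Type} [NormedAddCommGroup H] [InnerProductSpace ℝ H]

lemma DQ_smul_left (T : Form8 H) (c : ℝ) (e f : H) : DQ T (c • e) f = c ^ 7 * DQ T e f := by
  unfold DQ
  rw [Finset.mul_sum]
  refine Finset.sum_congr rfl fun s _ => ?_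
  have h1 : (Function.update (fun _ => c • e) s f : Fin 8 → H) =
      fun i => (Function.update (fun _ => c) s (1 : ℝ) : Fin 8 → ℝ) i •
        (Function.update (fun _ => e) s f : Fin 8 → H) i := by
    funext i
    by_cases h : i = s
    · subst h; simp
    · simp [h]
  have h2 := T.toMultilinearMap.map_smul_univ
    (Function.update (fun _ => c) s (1 : ℝ)) (Function.update (fun _ => e) s f)
  have h3 : ∏ i, (Function.update (fun _ => c) s (1 : ℝ) : Fin 8 → ℝ) i = c ^ 7 := by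
    rw [← Finset.mul_prod_erase univ _ (mem_univ s), Function.update_self, one_mul,
      Finset.prod_congr rfl (g := fun _ => c)]
    · rw [Finset.prod_const, Finset.card_erase_of_mem (mem_univ s)]; simp
    · intro i hi
      rw [Function.update_of_ne (Finset.ne_of_mem_erase hi)]
  rw [h1]
  rw [h3, smul_eq_mul] at h2
  exact h2

lemma Dg_smul_left (T : Form8 H) (δ c : ℝ) (e f : H) : Dg T δ (c • e) f = c ^ 7 * Dg T δ e f := by
  unfold Dg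
  rw [DQ_smul_left, norm_smul, mul_pow, Real.norm_eq_abs, real_inner_smul_left]
  have : |c| ^ 6 = c ^ 6 := by
    rw [show |c| ^ 6 = (|c| ^ 2) ^ 3 by ring, sq_abs]; ring
  rw [this]; ring

lemma real_upper {s t : ℝ} (hs : |s| ≤ 1) (ht : |t| ≤ 1) :
    (1 + 2 * (s * t) + s ^ 2) ^ 4 - 1 - 8 * (s * t) ≤ 247 * s ^ 2 := by
  set y := 2 * (s * t) + s ^ 2 with hy
  have hs2 : |s| ^ 2 ≤ |s| := by nlinarith [abs_nonneg s]
  have hyab : |y| ≤ 3 * |s| := by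
    calc |y| ≤ |2 * (s * t)| + |s ^ 2| := abs_add_le _ _
      _ = 2 * (|s| * |t|) + |s| ^ 2 := by rw [abs_mul, abs_mul, abs_pow]; norm_num
      _ ≤ 2 * (|s| * 1) + |s| := by gcongr
      _ = 3 * |s| := by ring
  have hy3 : |y| ≤ 3 := by linarith
  have e : (1 + 2 * (s * t) + s ^ 2) ^ 4 - 1 - 8 * (s * t) =
      4 * s ^ 2 + y ^ 2 * (6 + 4 * y + y ^ 2) := by rw [hy]; ring
  rw [e]
  have hb := abs_le.1 hy3
  have h1 : 6 + 4 * y + y ^ 2 ≤ 27 := by nlinarith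
  have h2 : y ^ 2 ≤ 9 * s ^ 2 := by
    have : |y| ^ 2 ≤ (3 * |s|) ^ 2 := pow_le_pow_left₀ (abs_nonneg _) hyab 2
    rw [sq_abs, mul_pow, sq_abs] at this
    linarith
  have h3 : y ^ 2 * (6 + 4 * y + y ^ 2) ≤ y ^ 2 * 27 := mul_le_mul_of_nonneg_left h1 (sq_nonneg _)
  nlinarith

lemma gg_second_order {T : Form8 H} (hT : ‖T‖ ≤ 1) {δ : ℝ} (hδ : 0 ≤ δ) (hδ' : δ ≤ 1 / 512000)
    {e f : H} (he : ‖e‖ = 1) (hf : ‖f‖ = 1) {s : ℝ} (hs : |s| ≤ 1) :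
    gg T δ (e + s • f) ≤ gg T δ e + s * Dg T δ e f + 248 * s ^ 2 := by
  have h1 : ‖e + s • f‖ ^ 8 ≤ 1 + 8 * (s * inner ℝ e f) + 247 * s ^ 2 := by
    have hi : |inner ℝ e f| ≤ 1 := by
      have := abs_real_inner_le_norm e f
      rw [he, hf] at this; simpa using this
    have := real_upper hs hi
    rw [norm_add_pow8, he, inner_smul_right, norm_smul, hf, Real.norm_eq_abs, mul_one, sq_abs,
      one_pow]
    linarith
  have h2 := (abs_le.1 (QQ_taylor T e (s • f))).2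
  rw [DQ_smul, norm_smul, he, hf, Real.norm_eq_abs, mul_one, one_pow, one_mul] at h2
  have h3 : |s| ^ 2 + |s| ^ 8 ≤ 2 * s ^ 2 := by
    have a : |s| ^ 8 ≤ |s| ^ 2 := pow_le_pow_of_le_one (abs_nonneg _) hs (by norm_num)
    rw [← sq_abs s]; linarith
  have h4 : 256 * ‖T‖ * (|s| ^ 2 + |s| ^ 8) ≤ 512 * s ^ 2 := by
    have a : 256 * ‖T‖ * (|s| ^ 2 + |s| ^ 8) ≤ 256 * 1 * (2 * s ^ 2) := by gcongr
    linarith
  have h5 : δ * (QQ T (e + s • f) - QQ T e - s * DQ T e f) ≤ δ * (512 * s ^ 2) :=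
    mul_le_mul_of_nonneg_left (by linarith) hδ
  have h6 : δ * (512 * s ^ 2) ≤ s ^ 2 := by nlinarith [sq_nonneg s]
  unfold gg Dg
  rw [he]
  nlinarith

lemma star_unit {T : Form8 H} (hT : ‖T‖ ≤ 1) {δ : ℝ} (hδ : 0 ≤ δ) (hδ' : δ ≤ 1 / 512000)
    {r : ℝ} (hr : 0 < r) (hr1 : r ≤ 1) {e f : H} (he : ‖e‖ = 1) (hf : ‖f‖ = 1)
    (h : ∀ s : ℝ, gg T δ e ≤ (1 + r ^ 2) * gg T δ (e + s • f)) :
    |Dg T δ e f| ≤ 250 * r := by
  have hg2 : gg T δ e ≤ 2 := by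
    have := gg_upper hT hδ hδ' e
    rw [he] at this; simpa using this
  have key : ∀ s : ℝ, |s| = r → -(s * Dg T δ e f) ≤ 250 * r ^ 2 := by
    intro s hs
    have h1 := h s
    have h2 := gg_second_order hT hδ hδ' he hf (s := s) (by rw [hs]; exact hr1)
    have hs2 : s ^ 2 = r ^ 2 := by rw [← sq_abs, hs]
    rw [hs2] at h2
    have hr2 : 0 < 1 + r ^ 2 := by positivity
    have h3 : (1 + r ^ 2) * gg T δ (e + s • f) ≤
        (1 + r ^ 2) * (gg T δ e + s * Dg T δ e f + 248 * r ^ 2) :=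
      mul_le_mul_of_nonneg_left h2 hr2.le
    have h4 : 0 ≤ r ^ 2 * gg T δ e + (1 + r ^ 2) * (s * Dg T δ e f + 248 * r ^ 2) := by nlinarith
    have h5 : r ^ 2 * gg T δ e ≤ (1 + r ^ 2) * (2 * r ^ 2) := by
      have : 0 ≤ r ^ 2 := by positivity
      nlinarith
    have h6 : 0 ≤ (1 + r ^ 2) * (s * Dg T δ e f + 250 * r ^ 2) := by linarith
    have h7 : 0 ≤ s * Dg T δ e f + 250 * r ^ 2 := by
      by_contra hc
      push Not at hc
      nlinarith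
    linarith
  rw [abs_le]
  constructor
  · have := key r (abs_of_pos hr)
    have h2 : r * (-Dg T δ e f) ≤ r * (250 * r) := by linarith [this]
    have := le_of_mul_le_mul_left h2 hr
    linarith
  · have := key (-r) (by rw [abs_neg, abs_of_pos hr])
    have h2 : r * (Dg T δ e f) ≤ r * (250 * r) := by linarith [this]
    exact le_of_mul_le_mul_left h2 hr

lemma abs_Dg_zero (T : Form8 H) (δ : ℝ) (f : H) : Dg T δ 0 f = 0 := by
  have := Dg_smul_left T δ 0 0 f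
  simpa using this

lemma Dg_zero_right (T : Form8 H) (δ : ℝ) (e : H) : Dg T δ e 0 = 0 := by
  have := Dg_smul T δ e 0 0
  simpa using this

lemma star {T : Form8 H} (hT : ‖T‖ ≤ 1) {δ : ℝ} (hδ : 0 ≤ δ) (hδ' : δ ≤ 1 / 512000)
    {r : ℝ} (hr : 0 < r) (hr1 : r ≤ 1) {e f : H}
    (h : ∀ s : ℝ, gg T δ e ≤ (1 + r ^ 2) * gg T δ (e + s • f)) :
    |Dg T δ e f| ≤ 250 * r * ‖e‖ ^ 7 * ‖f‖ := by
  by_cases he : e = 0
  · subst he; rw [abs_Dg_zero]; simp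
  by_cases hf : f = 0
  · subst hf; rw [Dg_zero_right]; simp
  have he' : 0 < ‖e‖ := norm_pos_iff.2 he
  have hf' : 0 < ‖f‖ := norm_pos_iff.2 hf
  have h1 := star_unit hT hδ hδ' hr hr1 (e := ‖e‖⁻¹ • e) (f := ‖f‖⁻¹ • f)
    (by rw [norm_smul, norm_inv, norm_norm, inv_mul_cancel₀ he'.ne'])
    (by rw [norm_smul, norm_inv, norm_norm, inv_mul_cancel₀ hf'.ne'])
    (by
      intro s
      have h2 := h (s * ‖e‖ * ‖f‖⁻¹)
      have h3 : ‖e‖⁻¹ • e + s • ‖f‖⁻¹ • f = ‖e‖⁻¹ • (e + (s * ‖e‖ * ‖f‖⁻¹) • f) := by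
        rw [smul_add, smul_smul, smul_smul]
        congr 2
        field_simp
      rw [h3, gg_smul, gg_smul]
      have h4 : 0 ≤ (‖e‖⁻¹) ^ 8 := by positivity
      nlinarith [mul_le_mul_of_nonneg_left h2 h4])
  rw [Dg_smul, Dg_smul_left, abs_mul, abs_mul, abs_of_pos (by positivity : 0 < ‖f‖⁻¹),
    abs_of_pos (by positivity : 0 < ‖e‖⁻¹ ^ 7)] at h1
  have h5 : ‖f‖⁻¹ * (‖e‖⁻¹ ^ 7 * |Dg T δ e f|) = |Dg T δ e f| / (‖e‖ ^ 7 * ‖f‖) := by
    field_simp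
  rw [h5, div_le_iff₀ (by positivity)] at h1
  linarith

/-- The range of a projection of norm close to one has a nearly linear gradient. -/
theorem lev_of_proj {T : Form8 H} (hT : ‖T‖ ≤ 1) {δ : ℝ} (hδ : 0 < δ) (hδ' : δ ≤ 1 / 512000)
    {r : ℝ} (hr : 0 < r) (hr1 : 250 * r + 8 * δ ≤ 4) (E : Submodule ℝ H) (P : H →ₗ[ℝ] H)
    (hPE : ∀ x, P x ∈ E) (hP : ∀ x ∈ E, P x = x)
    (h : ∀ x, gg T δ (P x) ≤ (1 + r ^ 2) * gg T δ x) :
    Lev T E (500 * r / δ + 500 * r + 16 * δ) := by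
  have hr1' : r ≤ 1 := by linarith
  have st : ∀ e ∈ E, ∀ f, P f = 0 → |Dg T δ e f| ≤ 250 * r * ‖e‖ ^ 7 * ‖f‖ := by
    intro e he f hf
    apply star hT hδ.le hδ' hr hr1'
    intro s
    have := h (e + s • f)
    rwa [map_add, map_smul, hf, smul_zero, add_zero, hP e he] at this
  refine ⟨(8 / δ) • ((innerₗ H).compl₂ P), fun e he f' hf' => ?_⟩
  set w := P f' with hw
  set f := f' - w with hf
  have hwE : w ∈ E := hPE f'
  have hPf : P f = 0 := by rw [hf, map_sub, hP w hwE, ← hw, sub_self]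
  have hin : ∀ x ∈ E, inner ℝ x f = -inner ℝ x w := by
    intro x hx
    have h0 : inner ℝ x f' = 0 := (Submodule.mem_orthogonal E f').1 hf' x hx
    rw [hf, inner_sub_right, h0, zero_sub]
  have hB : ((8 / δ) • ((innerₗ H).compl₂ P)) e f' = 8 / δ * inner ℝ e w := by
    simp [hw]
  rw [hB]
  have h1 := st e he f hPf
  have h2 : Dg T δ e f = -(8 * ‖e‖ ^ 6 * inner ℝ e w) + δ * DQ T e f := by
    unfold Dg; rw [hin e he]; ring
  have h3 : DQ T e f' = DQ T e f + DQ T e w := by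
    rw [← DQ_add, hf, sub_add_cancel]
  have h4 : DQ T e f' - ‖e‖ ^ 6 * (8 / δ * inner ℝ e w) = DQ T e w + δ⁻¹ * Dg T δ e f := by
    rw [h2, h3]; field_simp; ring
  rw [h4]
  have h5 : |DQ T e w| ≤ 8 * ‖e‖ ^ 7 * ‖w‖ := by
    refine (abs_DQ_le T e w).trans ?_
    have : 8 * ‖T‖ * ‖e‖ ^ 7 * ‖w‖ ≤ 8 * 1 * ‖e‖ ^ 7 * ‖w‖ := by gcongr
    linarith
  -- bound for `w`
  have h6 : ‖w‖ ≤ (250 * r + 8 * δ) / 8 * ‖f‖ := by
    by_cases hw0 : w = 0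
    · rw [hw0, norm_zero]; positivity
    have hw1 : 0 < ‖w‖ := norm_pos_iff.2 hw0
    have a := (abs_le.1 (st w hwE f hPf)).1
    have b : Dg T δ w f = -(8 * ‖w‖ ^ 8) + δ * DQ T w f := by
      unfold Dg; rw [hin w hwE, real_inner_self_eq_norm_sq]; ring
    have c : δ * DQ T w f ≤ δ * (8 * ‖w‖ ^ 7 * ‖f‖) := by
      refine mul_le_mul_of_nonneg_left ((le_abs_self _).trans ((abs_DQ_le T w f).trans ?_)) hδ.le
      have : 8 * ‖T‖ * ‖w‖ ^ 7 * ‖f‖ ≤ 8 * 1 * ‖w‖ ^ 7 * ‖f‖ := by gcongr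
      linarith
    have d : ‖w‖ ^ 7 * (8 * ‖w‖) ≤ ‖w‖ ^ 7 * ((250 * r + 8 * δ) * ‖f‖) := by nlinarith
    have e' := le_of_mul_le_mul_left d (by positivity)
    linarith
  have h7 : ‖f‖ ≤ ‖f'‖ + ‖w‖ := by rw [hf]; exact norm_sub_le _ _
  have h8 : ‖w‖ ≤ (250 * r + 8 * δ) / 4 * ‖f'‖ := by
    have a : (250 * r + 8 * δ) / 8 * ‖f‖ ≤ (250 * r + 8 * δ) / 8 * (‖f'‖ + ‖w‖) := by gcongr
    have b : (250 * r + 8 * δ) / 8 * ‖w‖ ≤ 1 / 2 * ‖w‖ :=
      mul_le_mul_of_nonneg_right (by linarith) (norm_nonneg _)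
    nlinarith
  have h9 : ‖f‖ ≤ 2 * ‖f'‖ := by
    have : (250 * r + 8 * δ) / 4 * ‖f'‖ ≤ 1 * ‖f'‖ :=
      mul_le_mul_of_nonneg_right (by linarith) (norm_nonneg _)
    linarith
  calc |DQ T e w + δ⁻¹ * Dg T δ e f| ≤ |DQ T e w| + |δ⁻¹ * Dg T δ e f| := abs_add_le _ _
    _ = |DQ T e w| + δ⁻¹ * |Dg T δ e f| := by
        rw [abs_mul, abs_of_pos (inv_pos.2 hδ)]
    _ ≤ 8 * ‖e‖ ^ 7 * ‖w‖ + δ⁻¹ * (250 * r * ‖e‖ ^ 7 * ‖f‖) := by gcongr
    _ ≤ 8 * ‖e‖ ^ 7 * ((250 * r + 8 * δ) / 4 * ‖f'‖) +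
          δ⁻¹ * (250 * r * ‖e‖ ^ 7 * (2 * ‖f'‖)) := by gcongr
    _ = (500 * r / δ + 500 * r + 16 * δ) * ‖e‖ ^ 7 * ‖f'‖ := by
        field_simp; ring

end H811
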