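import Mathlib

/-! Degree eight forms on a real inner product space: expansion and first derivative. -/

set_option autoImplicit false
set_option linter.unusedSectionVars false

open Finset

namespace H811

variable {H : Type} [NormedAddCommGroup H] [InnerProductSpace ℝ H]

/-- eight-linear forms -/
abbrev Form8 (H : Type) [NormedAddCommGroup H] [InnerProductSpace ℝ H] :=
  ContinuousMultilinearMap ℝ (fun _ : Fin 8 => H) ℝ

/-- the form of degree eight -/
noncomputable def QQ (T : Form8 H) (x : H) : ℝ := T (fun _ => x)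

/-- the derivative of the form at `e` in the direction `f` -/
noncomputable def DQ (T : Form8 H) (e f : H) : ℝ :=
  ∑ s : Fin 8, T (Function.update (fun _ => e) s f)

/-- the second (mixed) derivative at `a` in the directions `b` and `f`. -/
noncomputable def DDQ (T : Form8 H) (a b f : H) : ℝ :=
  ∑ s : Fin 8, ∑ r : Fin 8,
    T (Function.update (Function.update (fun _ => a) s f) r (Function.update (fun _ => b) s 0 r))

/-- the gradient is nearly linear on the sphere of `E`, in the directions orthogonal to `E` -/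
def Lev (T : Form8 H) (E : Submodule ℝ H) (c : ℝ) : Prop :=
  ∃ B : H →ₗ[ℝ] H →ₗ[ℝ] ℝ, ∀ e ∈ E, ∀ f ∈ Eᗮ,
    |DQ T e f - ‖e‖ ^ 6 * B e f| ≤ c * ‖e‖ ^ 7 * ‖f‖

lemma abs_le_prod (T : Form8 H) (m : Fin 8 → H) : |T m| ≤ ‖T‖ * ∏ i, ‖m i‖ := by
  have := T.le_opNorm m
  simpa [Real.norm_eq_abs] using this

lemma DQ_add (T : Form8 H) (e f g : H) : DQ T e (f + g) = DQ T e f + DQ T e g := by
  simp only [DQ, ContinuousMultilinearMap.map_update_add, sum_add_distrib]

lemma DQ_smul (T : Form8 H) (e f : H) (c : ℝ) : DQ T e (c • f) = c * DQ T e f := by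
  simp only [DQ, ContinuousMultilinearMap.map_update_smul, smul_eq_mul, mul_sum]

lemma DQ_neg (T : Form8 H) (e f : H) : DQ T e (-f) = -DQ T e f := by
  have := DQ_smul T e f (-1)
  simpa using this

lemma DQ_sub (T : Form8 H) (e f g : H) : DQ T e (f - g) = DQ T e f - DQ T e g := by
  rw [sub_eq_add_neg, DQ_add, DQ_neg, sub_eq_add_neg]

lemma DQ_zero (T : Form8 H) (e : H) : DQ T e 0 = 0 := by
  have := DQ_smul T e 0 0
  simpa using this

/-- the derivative as a linear map in the direction -/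
noncomputable def DQl (T : Form8 H) (e : H) : H →ₗ[ℝ] ℝ where
  toFun := DQ T e
  map_add' := DQ_add T e
  map_smul' c f := by simp [DQ_smul]

@[simp] lemma DQl_apply (T : Form8 H) (e f : H) : DQl T e f = DQ T e f := rfl

lemma prod_update (e f : H) (s : Fin 8) :
    ∏ i, ‖Function.update (fun _ : Fin 8 => e) s f i‖ = ‖e‖ ^ 7 * ‖f‖ := by
  rw [← Finset.mul_prod_erase univ _ (mem_univ s), Function.update_self, mul_comm]
  congr 1
  rw [Finset.prod_congr rfl (g := fun _ => ‖e‖)]
  · rw [Finset.prod_const, Finset.card_erase_of_mem (mem_univ s)]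
    simp
  · intro i hi
    rw [Function.update_of_ne (Finset.ne_of_mem_erase hi)]

lemma abs_DQ_le (T : Form8 H) (e f : H) : |DQ T e f| ≤ 8 * ‖T‖ * ‖e‖ ^ 7 * ‖f‖ := by
  unfold DQ
  refine (Finset.abs_sum_le_sum_abs _ _).trans ?_
  calc ∑ s : Fin 8, |T (Function.update (fun _ => e) s f)|
      ≤ ∑ s : Fin 8, ‖T‖ * (‖e‖ ^ 7 * ‖f‖) := by
        refine Finset.sum_le_sum fun s _ => ?_
        rw [← prod_update e f s]
        exact abs_le_prod T _
    _ = 8 * ‖T‖ * ‖e‖ ^ 7 * ‖f‖ := by
        rw [Finset.sum_const]; simp; ring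

lemma abs_QQ_le (T : Form8 H) (x : H) : |QQ T x| ≤ ‖T‖ * ‖x‖ ^ 8 := by
  have := abs_le_prod T (fun _ => x)
  simpa [QQ] using this

lemma QQ_smul (T : Form8 H) (c : ℝ) (x : H) : QQ T (c • x) = c ^ 8 * QQ T x := by
  have := T.toMultilinearMap.map_smul_univ (fun _ => c) (fun _ => x)
  simpa [QQ] using this

lemma piecewise_singleton (x v : H) (s : Fin 8) :
    ({s} : Finset (Fin 8)).piecewise (fun _ => v) (fun _ => x) = Function.update (fun _ => x) s v := by
  funext i
  by_cases h : i = s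
  · subst h; simp [Finset.piecewise]
  · simp [Finset.piecewise, h]

lemma prod_piecewise (x v : H) (S : Finset (Fin 8)) :
    ∏ i, ‖S.piecewise (fun _ => v) (fun _ => x) i‖ = ‖v‖ ^ S.card * ‖x‖ ^ (8 - S.card) := by
  have h1 : ∀ i, ‖S.piecewise (fun _ => v) (fun _ => x) i‖ = if i ∈ S then ‖v‖ else ‖x‖ := by
    intro i
    by_cases h : i ∈ S <;> simp [Finset.piecewise, h]
  simp_rw [h1]
  rw [Finset.prod_ite]
  simp only [prod_const]
  congr 2
  · congr 1; ext i; simp
  · have : (univ.filter fun i => i ∉ S) = Sᶜ := by ext i; simp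
    rw [this, Finset.card_compl]; simp

lemma pow_mix {p q : ℝ} (hp : 0 ≤ p) (hq : 0 ≤ q) {j : ℕ} (h2 : 2 ≤ j) (h8 : j ≤ 8) :
    q ^ j * p ^ (8 - j) ≤ p ^ 6 * q ^ 2 + q ^ 8 := by
  rcases le_total q p with h | h
  · have h1 : q ^ j * p ^ (8 - j) ≤ q ^ 2 * p ^ 6 := by
      obtain ⟨i, rfl⟩ : ∃ i, j = 2 + i := ⟨j - 2, by omega⟩
      have : q ^ i ≤ p ^ i := pow_le_pow_left₀ hq h i
      calc q ^ (2 + i) * p ^ (8 - (2 + i)) = q ^ 2 * (q ^ i * p ^ (8 - (2 + i))) := by ring
        _ ≤ q ^ 2 * (p ^ i * p ^ (8 - (2 + i))) := by gcongr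
        _ = q ^ 2 * p ^ 6 := by rw [← pow_add]; congr 2; omega
    have h3 : 0 ≤ q ^ 8 := by positivity
    linarith [mul_comm (q ^ 2) (p ^ 6)]
  · have h1 : q ^ j * p ^ (8 - j) ≤ q ^ 8 := by
      have : p ^ (8 - j) ≤ q ^ (8 - j) := pow_le_pow_left₀ hp h _
      calc q ^ j * p ^ (8 - j) ≤ q ^ j * q ^ (8 - j) := by gcongr
        _ = q ^ 8 := by rw [← pow_add]; congr 1; omega
    have h3 : 0 ≤ p ^ 6 * q ^ 2 := by positivity
    linarith

/-- Taylor expansion of order two with remainder. -/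
lemma QQ_taylor (T : Form8 H) (x v : H) :
    |QQ T (x + v) - QQ T x - DQ T x v| ≤ 256 * ‖T‖ * (‖x‖ ^ 6 * ‖v‖ ^ 2 + ‖v‖ ^ 8) := by
  classical
  have h0 : QQ T (x + v) = ∑ S : Finset (Fin 8), T (S.piecewise (fun _ => v) (fun _ => x)) := by
    have := T.toMultilinearMap.map_add_univ (fun _ => v) (fun _ => x)
    rw [QQ, add_comm x v]
    exact this
  set F : Finset (Fin 8) → ℝ := fun S => T (S.piecewise (fun _ => v) (fun _ => x)) with hF
  have h1 : QQ T x = F ∅ := by simp [hF, QQ]
  have h2 : DQ T x v = ∑ S ∈ powersetCard 1 univ, F S := by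
    rw [powersetCard_one, Finset.sum_map]
    unfold DQ
    refine Finset.sum_congr rfl fun s _ => ?_
    simp only [hF, Function.Embedding.coeFn_mk]
    rw [piecewise_singleton]
  have h3 : (univ : Finset (Finset (Fin 8))) =
      insert ∅ (powersetCard 1 univ ∪ univ.filter fun S => 2 ≤ S.card) := by
    ext S
    simp only [mem_univ, mem_insert, mem_union, mem_powersetCard, subset_univ, true_and,
      mem_filter, true_iff]
    rcases Nat.lt_or_ge S.card 2 with h | h
    · interval_cases hc : S.card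
      · left; exact Finset.card_eq_zero.1 hc
      · right; left; rfl
    · right; right; exact h
  have hd1 : (∅ : Finset (Fin 8)) ∉ (powersetCard 1 univ ∪ univ.filter fun S => 2 ≤ S.card) := by
    simp
  have hd2 : Disjoint (powersetCard 1 (univ : Finset (Fin 8))) (univ.filter fun S => 2 ≤ S.card) := by
    rw [Finset.disjoint_left]
    intro S hS hS'
    have a := (mem_powersetCard.1 hS).2
    have b := (mem_filter.1 hS').2
    omega
  have h4 : ∑ S : Finset (Fin 8), F S =
      F ∅ + (∑ S ∈ powersetCard 1 univ, F S + ∑ S ∈ univ.filter (fun S => 2 ≤ S.card), F S) := by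
    have h6 : ∑ S : Finset (Fin 8), F S = ∑ S ∈ insert ∅ (powersetCard 1 univ ∪
        univ.filter fun S => 2 ≤ S.card), F S := by rw [← h3]
    rw [h6, Finset.sum_insert hd1, Finset.sum_union hd2]
  have h5 : QQ T (x + v) - QQ T x - DQ T x v = ∑ S ∈ univ.filter (fun S => 2 ≤ S.card), F S := by
    rw [h0, h1, h2, h4]; ring
  rw [h5]
  refine (Finset.abs_sum_le_sum_abs _ _).trans ?_
  calc ∑ S ∈ univ.filter (fun S : Finset (Fin 8) => 2 ≤ S.card), |F S|
      ≤ ∑ S ∈ univ.filter (fun S : Finset (Fin 8) => 2 ≤ S.card),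
          ‖T‖ * (‖x‖ ^ 6 * ‖v‖ ^ 2 + ‖v‖ ^ 8) := by
        refine Finset.sum_le_sum fun S hS => ?_
        have hc : S.card ≤ 8 := by simpa using Finset.card_le_univ S
        have := abs_le_prod T (S.piecewise (fun _ => v) (fun _ => x))
        rw [prod_piecewise] at this
        refine this.trans ?_
        exact mul_le_mul_of_nonneg_left
          (pow_mix (norm_nonneg _) (norm_nonneg _) (mem_filter.1 hS).2 hc) (norm_nonneg _)
    _ ≤ ∑ S : Finset (Fin 8), ‖T‖ * (‖x‖ ^ 6 * ‖v‖ ^ 2 + ‖v‖ ^ 8) := by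
        refine Finset.sum_le_sum_of_subset_of_nonneg (Finset.filter_subset _ _) fun S _ _ => ?_
        positivity
    _ = 256 * ‖T‖ * (‖x‖ ^ 6 * ‖v‖ ^ 2 + ‖v‖ ^ 8) := by
        rw [Finset.sum_const, Finset.card_univ, Fintype.card_finset]
        simp
        ring

end H811
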