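import Pool.Agent.helper811_gap.Prob2
import Pool.Agent.helper811_gap.FirstOrder

/-! Existence of a form whose gradient is far from linear on every subspace. -/

set_option autoImplicit false
set_option linter.unusedSectionVars false

open Finset MeasureTheory ProbabilityTheory Real Module
open scoped ENNReal RealInnerProductSpace

namespace H811

lemma Lev.mono {H : Type} [NormedAddCommGroup H] [InnerProductSpace ℝ H] {T : Form8 H}
    {E : Submodule ℝ H} {c c' : ℝ} (h : Lev T E c) (hc : c ≤ c') : Lev T E c' := by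
  obtain ⟨B, hB⟩ := h
  refine ⟨B, fun e he f hf => (hB e he f hf).trans ?_⟩
  gcongr

lemma Lev.of_smul {H : Type} [NormedAddCommGroup H] [InnerProductSpace ℝ H] {T : Form8 H}
    {E : Submodule ℝ H} {c a : ℝ} (ha : 0 < a) (h : Lev (a • T) E c) : Lev T E (c / a) := by
  obtain ⟨B, hB⟩ := h
  refine ⟨a⁻¹ • B, fun e he f hf => ?_⟩
  have h1 : DQ (a • T) e f = a * DQ T e f := by
    unfold DQ
    rw [Finset.mul_sum]
    exact Finset.sum_congr rfl fun s _ => rfl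
  have h2 := hB e he f hf
  have h3 : DQ T e f - ‖e‖ ^ 6 * (a⁻¹ • B) e f = a⁻¹ * (DQ (a • T) e f - ‖e‖ ^ 6 * B e f) := by
    rw [h1]
    simp only [LinearMap.smul_apply, smul_eq_mul]
    field_simp
  rw [h3, abs_mul, abs_of_pos (inv_pos.2 ha)]
  calc a⁻¹ * |DQ (a • T) e f - ‖e‖ ^ 6 * B e f| ≤ a⁻¹ * (c * ‖e‖ ^ 7 * ‖f‖) := by gcongr
    _ = c / a * ‖e‖ ^ 7 * ‖f‖ := by field_simp

/-- the level -/
noncomputable def c0 : ℝ := 1 / (16 * 10 ^ 8 * 5468750 ^ 3)

lemma c0_pos : 0 < c0 := by unfold c0; positivity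

lemma c0_le : c0 ≤ 1 / 10 ^ 29 := by unfold c0; norm_num

lemma quarter : (20000 / c0) ^ 2 * (5468750 * c0) ^ 3 = 1 / 4 := by
  unfold c0; norm_num

lemma min_bound {n k k' : ℕ} (hn : k + k' = n) : n * min k (n - k) ≤ 2 * (k * k') := by
  have h : n - k = k' := by omega
  rw [h]
  rcases le_total k k' with h1 | h1
  · rw [min_eq_left h1]; nlinarith
  · rw [min_eq_right h1]; nlinarith

lemma prod_lower {n k k' : ℕ} (hk : 1 ≤ k) (hk' : 1 ≤ k') (hn : k + k' = n) : n - 1 ≤ k * k' := by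
  obtain ⟨a, rfl⟩ : ∃ a, k = a + 1 := ⟨k - 1, by omega⟩
  obtain ⟨b, rfl⟩ : ∃ b, k' = b + 1 := ⟨k' - 1, by omega⟩
  subst hn
  have : a + 1 + (b + 1) - 1 = a + b + 1 := by omega
  rw [this]
  nlinarith [Nat.zero_le (a * b)]

/-- The failure probability for subspaces of dimension `k`. -/
lemma prob_k {n k : ℕ} (hk : 2 ≤ k) (hkn : k + 1 ≤ n) :
    ∃ 𝓔 : Finset (Submodule ℝ (HE n)),
      (∀ E : Submodule ℝ (HE n), finrank ℝ E = k → ∃ E₀ ∈ 𝓔, Close (c0 / 5000) E E₀) ∧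
      stdGaussian (VE n) (⋃ E₀ ∈ 𝓔, {t | Lev (Tm t) E₀ (c0 * √n)}) ≤
        ENNReal.ofReal ((1 / 4) ^ (n - 1)) := by
  obtain ⟨𝓔, h1, h2, h3⟩ := exists_subspace_net (H := HE n) (n := n) (k := k)
    (by simp) (η := c0 / 5000) (by have := c0_pos; positivity)
  refine ⟨𝓔, h3, ?_⟩
  set k' := n - k with hk'
  have hn : k + k' = n := by omega
  have hk1 : 1 ≤ k' := by omega
  have hc0 := c0_pos
  have hc0' := c0_le
  have hc1 : 5468750 * c0 ≤ 1 := by
    have : (5468750 : ℝ) * c0 ≤ 5468750 * (1 / 10 ^ 29) := by gcongr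
    refine this.trans ?_
    norm_num
  refine (measure_biUnion_finset_le _ _).trans ?_
  calc ∑ E₀ ∈ 𝓔, stdGaussian (VE n) {t | Lev (Tm t) E₀ (c0 * √n)}
      ≤ ∑ E₀ ∈ 𝓔, ENNReal.ofReal ((5468750 * c0) ^ (3 * (k * k'))) :=
        Finset.sum_le_sum fun E hE => prob_lev hk hk1 hn E (h1 E hE) hc0 hc1
    _ = ENNReal.ofReal ((𝓔.card : ℝ) * (5468750 * c0) ^ (3 * (k * k'))) := by
        rw [Finset.sum_const, nsmul_eq_mul, ENNReal.ofReal_mul (Nat.cast_nonneg _),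
          ENNReal.ofReal_natCast]
    _ ≤ ENNReal.ofReal ((1 / 4) ^ (n - 1)) := by
        apply ENNReal.ofReal_le_ofReal
        have h4 : (1 + 2 / (c0 / 5000)) ≤ 20000 / c0 := by
          rw [le_div_iff₀ hc0]
          have : (1 + 2 / (c0 / 5000)) * c0 = c0 + 10000 := by field_simp; ring
          rw [this]
          have : c0 ≤ 1 := hc0'.trans (by norm_num)
          linarith
        have h5 : 1 ≤ 20000 / c0 := by
          rw [le_div_iff₀ hc0]
          have : c0 ≤ 1 := hc0'.trans (by norm_num)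
          linarith
        have h6 : (𝓔.card : ℝ) ≤ (20000 / c0) ^ (2 * (k * k')) := by
          refine h2.trans ?_
          calc (1 + 2 / (c0 / 5000)) ^ (n * min k (n - k)) ≤
              (20000 / c0) ^ (n * min k (n - k)) :=
                pow_le_pow_left₀ (by positivity) h4 _
            _ ≤ (20000 / c0) ^ (2 * (k * k')) := pow_le_pow_right₀ h5 (min_bound hn)
        calc (𝓔.card : ℝ) * (5468750 * c0) ^ (3 * (k * k'))
            ≤ (20000 / c0) ^ (2 * (k * k')) * (5468750 * c0) ^ (3 * (k * k')) := by gcongr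
          _ = ((20000 / c0) ^ 2 * (5468750 * c0) ^ 3) ^ (k * k') := by
              rw [pow_mul (20000 / c0), pow_mul (5468750 * c0), ← mul_pow]
          _ = (1 / 4) ^ (k * k') := by rw [quarter]
          _ ≤ (1 / 4) ^ (n - 1) := by
              apply pow_le_pow_of_le_one (by norm_num) (by norm_num)
              exact prod_lower (by omega) hk1 hn

/-- Existence of a good form. -/
theorem exists_good {n : ℕ} (hn : 3 ≤ n) : ∃ T : Form8 (HE n), ‖T‖ ≤ 1 ∧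
    ∀ E : Submodule ℝ (HE n), 2 ≤ finrank ℝ E → finrank ℝ E + 1 ≤ n → ¬ Lev T E (c0 / 40) := by
  classical
  have hk : ∀ k : ℕ, ∃ 𝓔 : Finset (Submodule ℝ (HE n)), 2 ≤ k → k + 1 ≤ n →
      (∀ E : Submodule ℝ (HE n), finrank ℝ E = k → ∃ E₀ ∈ 𝓔, Close (c0 / 5000) E E₀) ∧
      stdGaussian (VE n) (⋃ E₀ ∈ 𝓔, {t | Lev (Tm t) E₀ (c0 * √n)}) ≤
        ENNReal.ofReal ((1 / 4) ^ (n - 1)) := by
    intro k
    by_cases h : 2 ≤ k ∧ k + 1 ≤ n
    · obtain ⟨𝓔, h1, h2⟩ := prob_k h.1 h.2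
      exact ⟨𝓔, fun _ _ => ⟨h1, h2⟩⟩
    · exact ⟨∅, fun h1 h2 => absurd ⟨h1, h2⟩ h⟩
  choose 𝓔 h𝓔 using hk
  set bad : Set (VE n) := {t | 20 * √n < ‖Tm t‖} ∪
    ⋃ k ∈ Finset.Icc 2 (n - 1), ⋃ E₀ ∈ 𝓔 k, {t | Lev (Tm t) E₀ (c0 * √n)} with hbad
  have hmeas : stdGaussian (VE n) bad < 1 := by
    have h1 : stdGaussian (VE n) bad ≤ ENNReal.ofReal (2 * (1 / 100) ^ n) +
        ENNReal.ofReal ((n : ℝ) * (1 / 4) ^ (n - 1)) := by
      refine (measure_union_le _ _).trans (add_le_add (norm_bound n) ?_)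
      refine (measure_biUnion_finset_le _ _).trans ?_
      calc ∑ k ∈ Finset.Icc 2 (n - 1),
            stdGaussian (VE n) (⋃ E₀ ∈ 𝓔 k, {t | Lev (Tm t) E₀ (c0 * √n)})
          ≤ ∑ k ∈ Finset.Icc 2 (n - 1), ENNReal.ofReal ((1 / 4) ^ (n - 1)) := by
            refine Finset.sum_le_sum fun k hk => ?_
            rw [Finset.mem_Icc] at hk
            exact (h𝓔 k hk.1 (by omega)).2
        _ = ENNReal.ofReal (((Finset.Icc 2 (n - 1)).card : ℝ) * (1 / 4) ^ (n - 1)) := by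
            rw [Finset.sum_const, nsmul_eq_mul, ENNReal.ofReal_mul (Nat.cast_nonneg _),
              ENNReal.ofReal_natCast]
        _ ≤ ENNReal.ofReal ((n : ℝ) * (1 / 4) ^ (n - 1)) := by
            apply ENNReal.ofReal_le_ofReal
            gcongr
            rw [Nat.card_Icc]
            omega
    refine lt_of_le_of_lt h1 ?_
    rw [← ENNReal.ofReal_add (by positivity) (by positivity), ← ENNReal.ofReal_one]
    apply (ENNReal.ofReal_lt_ofReal_iff zero_lt_one).2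
    have h2 : (2 : ℝ) * (1 / 100) ^ n ≤ 1 / 50 := by
      have : ((1 : ℝ) / 100) ^ n ≤ (1 / 100) ^ 1 :=
        pow_le_pow_of_le_one (by norm_num) (by norm_num) (by omega)
      linarith
    have h3 : (n : ℝ) * (1 / 4) ^ (n - 1) ≤ 1 / 2 := by
      obtain ⟨m, rfl⟩ : ∃ m, n = m + 3 := ⟨n - 3, by omega⟩
      have h4 : (m + 3 : ℕ) ≤ 2 ^ (m + 2) := by
        have : m + 2 < 2 ^ (m + 2) := Nat.lt_two_pow_self
        omega
      have h5 : ((m + 3 : ℕ) : ℝ) ≤ 2 ^ (m + 2) := by exact_mod_cast h4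
      have e : m + 3 - 1 = m + 2 := by omega
      rw [e]
      calc ((m + 3 : ℕ) : ℝ) * (1 / 4) ^ (m + 2) ≤ 2 ^ (m + 2) * (1 / 4) ^ (m + 2) := by gcongr
        _ = (1 / 2) ^ (m + 2) := by rw [← mul_pow]; norm_num
        _ ≤ (1 / 2) ^ 1 := pow_le_pow_of_le_one (by norm_num) (by norm_num) (by omega)
        _ = 1 / 2 := by norm_num
    linarith
  obtain ⟨t, ht⟩ : ∃ t, t ∉ bad := by
    by_contra hc
    push Not at hc
    have : bad = Set.univ := Set.eq_univ_of_forall hc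
    rw [this, measure_univ] at hmeas
    exact lt_irrefl _ hmeas
  have hn0 : (0 : ℝ) < n := by exact_mod_cast (by omega : 0 < n)
  have hs : 0 < √(n : ℝ) := Real.sqrt_pos.2 hn0
  have hc0 := c0_pos
  have ht1 : ‖Tm t‖ ≤ 20 * √n := by
    by_contra hc
    push Not at hc
    exact ht (Or.inl hc)
  have ht2 : ∀ k, 2 ≤ k → k + 1 ≤ n → ∀ E₀ ∈ 𝓔 k, ¬ Lev (Tm t) E₀ (c0 * √n) := by
    intro k hk1 hk2 E₀ hE₀ hlev
    apply ht
    right
    simp only [Set.mem_iUnion]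
    exact ⟨k, Finset.mem_Icc.2 ⟨hk1, by omega⟩, E₀, hE₀, hlev⟩
  refine ⟨(20 * √n)⁻¹ • Tm t, ?_, ?_⟩
  · rw [norm_smul, norm_inv, Real.norm_of_nonneg (by positivity), inv_mul_le_iff₀ (by positivity)]
    linarith
  · intro E hE1 hE2 hlev
    have h1 := hlev.of_smul (inv_pos.2 (by positivity : 0 < 20 * √(n : ℝ)))
    have h2 : c0 / 40 / (20 * √(n : ℝ))⁻¹ = c0 / 2 * √n := by field_simp; norm_num
    rw [h2] at h1
    obtain ⟨E₀, hE₀, hcl⟩ := (h𝓔 _ hE1 hE2).1 E rfl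
    have h3 := lev_stable (by positivity) (by positivity) hcl h1
    refine ht2 _ hE1 hE2 E₀ hE₀ (h3.mono ?_)
    have h4 : (120 * ‖Tm t‖ + 6 * (c0 / 2 * √n)) * (c0 / 5000) ≤
        (120 * (20 * √n) + 6 * (c0 / 2 * √n)) * (c0 / 5000) := by gcongr
    have h5 : c0 ≤ 1 := c0_le.trans (by norm_num)
    have h6 : (120 * (20 * √n) + 6 * (c0 / 2 * √(n : ℝ))) * (c0 / 5000) ≤
        (2403 * √n) * (c0 / 5000) := by
      apply mul_le_mul_of_nonneg_right _ (by positivity)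
      nlinarith
    nlinarith

end H811
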