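import Pool.Agent.helper811_gap.Form

/-! Interpolation functionals and the consequences of near linearity for orthonormal frames. -/

set_option autoImplicit false
set_option linter.unusedSectionVars false

open Finset
open scoped RealInnerProductSpace

namespace H811

/-- interpolation points -/
noncomputable def pt : Fin 8 → ℝ := ![0, 1, -1, 2, -2, 3, -3, 4]

/-- weights of the interpolation functionals -/
noncomputable def lam : Fin 3 → Fin 8 → ℝ :=
  ![![-37/144, 145/144, -143/240, -73/240, 71/720, 49/720, -47/5040, -37/5040],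
    ![-157/36, 3/4, 3/4, -3/40, -3/40, 1/180, 1/180, 0],
    ![23/72, -85/144, 19/240, 43/120, -37/360, -61/720, 59/5040, 23/2520]]

/-- weights of the functional of the linear coefficient -/
noncomputable def mu : Fin 8 → ℝ := ![-1/4, 1, -3/5, -3/10, 1/10, 1/15, -1/105, -1/140]

lemma lam_pow (j : Fin 3) (i : ℕ) (h1 : 1 ≤ i) (h6 : i ≤ 6) :
    ∑ p, lam j p * pt p ^ i = if i = (j : ℕ) + 1 then 1 else 0 := by
  interval_cases i <;> fin_cases j <;> simp [Fin.sum_univ_eight, lam, pt] <;> norm_num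

lemma lam_even (j : Fin 3) : ∑ p, lam j p * (1 + pt p ^ 2) ^ 3 = 0 := by
  fin_cases j <;> simp [Fin.sum_univ_eight, lam, pt] <;> norm_num

lemma lam_odd (j : Fin 3) : ∑ p, lam j p * ((1 + pt p ^ 2) ^ 3 * pt p) = 0 := by
  fin_cases j <;> simp [Fin.sum_univ_eight, lam, pt] <;> norm_num

lemma lam_abs (j : Fin 3) : ∑ p, |lam j p| ≤ 7 := by
  fin_cases j <;> simp [Fin.sum_univ_eight, lam, abs_div] <;> norm_num

lemma mu_pow (i : ℕ) (h7 : i ≤ 7) :
    ∑ p, mu p * pt p ^ i = if i = 1 then 1 else 0 := by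
  interval_cases i <;> simp [Fin.sum_univ_eight, mu, pt] <;> norm_num

lemma mu_even : ∑ p, mu p * (1 + pt p ^ 2) ^ 3 = 0 := by
  simp [Fin.sum_univ_eight, mu, pt]; norm_num

lemma mu_odd : ∑ p, mu p * ((1 + pt p ^ 2) ^ 3 * pt p) = 1 := by
  simp [Fin.sum_univ_eight, mu, pt]; norm_num

lemma mu_abs : ∑ p, |mu p| ≤ 3 := by
  simp [Fin.sum_univ_eight, mu, abs_div]; norm_num

lemma pt_sq (p : Fin 8) : pt p ^ 2 ≤ 16 := by
  fin_cases p <;> simp [pt] <;> norm_num

variable {H : Type} [NormedAddCommGroup H] [InnerProductSpace ℝ H]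

lemma norm_frame_sq {a b : H} (ha : ‖a‖ = 1) (hb : ‖b‖ = 1) (hab : ⟪a, b⟫ = 0) (x : ℝ) :
    ‖a + x • b‖ ^ 2 = 1 + x ^ 2 := by
  rw [norm_add_sq_real, inner_smul_right, hab, ha, norm_smul, hb, Real.norm_eq_abs, mul_one, sq_abs]
  ring

lemma norm_frame_le {a b : H} (ha : ‖a‖ = 1) (hb : ‖b‖ = 1) (hab : ⟪a, b⟫ = 0) (p : Fin 8) :
    ‖a + pt p • b‖ ^ 7 ≤ 78125 := by
  have h1 := norm_frame_sq ha hb hab (pt p)
  have h2 := pt_sq p
  have h3 : ‖a + pt p • b‖ ≤ 5 := by
    apply le_of_pow_le_pow_left₀ (by norm_num : (2 : ℕ) ≠ 0) (by norm_num)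
    rw [h1]; linarith
  calc ‖a + pt p • b‖ ^ 7 ≤ 5 ^ 7 := pow_le_pow_left₀ (norm_nonneg _) h3 7
    _ = 78125 := by norm_num

lemma weights_bound {T : Form8 H} {E : Submodule ℝ H} {c : ℝ} (hc : 0 ≤ c)
    {B : H →ₗ[ℝ] H →ₗ[ℝ] ℝ}
    (hB : ∀ e ∈ E, ∀ f ∈ Eᗮ, |DQ T e f - ‖e‖ ^ 6 * B e f| ≤ c * ‖e‖ ^ 7 * ‖f‖)
    {a b f : H} (haE : a ∈ E) (hbE : b ∈ E) (hfE : f ∈ Eᗮ)
    (ha : ‖a‖ = 1) (hb : ‖b‖ = 1) (hab : ⟪a, b⟫ = 0) (w : Fin 8 → ℝ) (K : ℝ)
    (hw : ∑ p, |w p| ≤ K) :
    |∑ p, w p * DQ T (a + pt p • b) f - ((∑ p, w p * (1 + pt p ^ 2) ^ 3) * B a f +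
      (∑ p, w p * ((1 + pt p ^ 2) ^ 3 * pt p)) * B b f)| ≤ K * 78125 * c * ‖f‖ := by
  have h1 : ∑ p, w p * DQ T (a + pt p • b) f - ((∑ p, w p * (1 + pt p ^ 2) ^ 3) * B a f +
      (∑ p, w p * ((1 + pt p ^ 2) ^ 3 * pt p)) * B b f) =
      ∑ p, w p * (DQ T (a + pt p • b) f - ‖a + pt p • b‖ ^ 6 * B (a + pt p • b) f) := by
    rw [Finset.sum_mul, Finset.sum_mul, ← Finset.sum_add_distrib, ← Finset.sum_sub_distrib]
    refine Finset.sum_congr rfl fun p _ => ?_
    have h2 : ‖a + pt p • b‖ ^ 6 = (1 + pt p ^ 2) ^ 3 := by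
      rw [← norm_frame_sq ha hb hab (pt p)]; ring
    have h3 : B (a + pt p • b) f = B a f + pt p * B b f := by simp
    rw [h2, h3]; ring
  rw [h1]
  refine (Finset.abs_sum_le_sum_abs _ _).trans ?_
  calc ∑ p, |w p * (DQ T (a + pt p • b) f - ‖a + pt p • b‖ ^ 6 * B (a + pt p • b) f)|
      ≤ ∑ p, |w p| * (c * 78125 * ‖f‖) := by
        refine Finset.sum_le_sum fun p _ => ?_
        rw [abs_mul]
        refine mul_le_mul_of_nonneg_left ?_ (abs_nonneg _)
        refine (hB _ (E.add_mem haE (E.smul_mem _ hbE)) f hfE).trans ?_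
        have := norm_frame_le ha hb hab p
        gcongr
    _ = (∑ p, |w p|) * (c * 78125 * ‖f‖) := by rw [Finset.sum_mul]
    _ ≤ K * (c * 78125 * ‖f‖) := by gcongr
    _ = K * 78125 * c * ‖f‖ := by ring

lemma lev_one {T : Form8 H} {E : Submodule ℝ H} {c : ℝ} (hc : 0 ≤ c) (h : Lev T E c)
    {a b f : H} (haE : a ∈ E) (hbE : b ∈ E) (hfE : f ∈ Eᗮ)
    (ha : ‖a‖ = 1) (hb : ‖b‖ = 1) (hab : ⟪a, b⟫ = 0) (j : Fin 3) :
    |∑ p, lam j p * DQ T (a + pt p • b) f| ≤ 546875 * c * ‖f‖ := by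
  obtain ⟨B, hB⟩ := h
  have := weights_bound hc hB haE hbE hfE ha hb hab (lam j) 7 (lam_abs j)
  rw [lam_even, lam_odd] at this
  norm_num at this
  exact this

/-- The functional of the linear coefficient gives the mixed second derivative. -/
lemma sum_mu_DQ (T : Form8 H) (a b f : H) :
    ∑ p, mu p * DQ T (a + pt p • b) f = DDQ T a b f := by
  classical
  unfold DQ DDQ
  simp_rw [Finset.mul_sum]
  rw [Finset.sum_comm]
  refine Finset.sum_congr rfl fun s _ => ?_
  set m : Fin 8 → H := Function.update (fun _ => a) s f with hm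
  set m' : Fin 8 → H := Function.update (fun _ => b) s 0 with hm'
  have h1 : ∀ x : ℝ, (Function.update (fun _ => a + x • b) s f : Fin 8 → H) = (x • m') + m := by
    intro x
    funext i
    by_cases h : i = s
    · subst h; simp [hm, hm']
    · simp [hm, hm', h, add_comm]
  have h2 : ∀ x : ℝ, T (Function.update (fun _ => a + x • b) s f) =
      ∑ S : Finset (Fin 8), x ^ S.card * T (S.piecewise m' m) := by
    intro x
    rw [h1]
    have h3 := T.toMultilinearMap.map_add_univ (x • m') m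
    change T (x • m' + m) = _ at h3
    rw [h3]
    refine Finset.sum_congr rfl fun S _ => ?_
    have h4 := T.toMultilinearMap.map_piecewise_smul (fun _ => x) (S.piecewise m' m) S
    have h5 : S.piecewise (fun i => x • (S.piecewise m' m) i) (S.piecewise m' m) =
        S.piecewise (x • m') m := by
      funext i
      by_cases h : i ∈ S <;> simp [Finset.piecewise, h]
    rw [h5, Finset.prod_const, smul_eq_mul] at h4
    exact h4
  simp_rw [h2]
  simp_rw [Finset.mul_sum]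
  rw [Finset.sum_comm]
  have h6 : ∀ S : Finset (Fin 8), ∑ p, mu p * (pt p ^ S.card * T (S.piecewise m' m)) =
      if S.card = 1 then T (S.piecewise m' m) else 0 := by
    intro S
    by_cases hS : s ∈ S
    · have h0 : T (S.piecewise m' m) = 0 := by
        apply T.map_coord_zero s
        simp [Finset.piecewise, hS, hm']
      rw [h0]; simp
    · have hc : S.card ≤ 7 := by
        have : S ⊆ univ.erase s := fun i hi => Finset.mem_erase.2 ⟨fun h => hS (h ▸ hi), mem_univ i⟩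
        have h := Finset.card_le_card this
        rw [Finset.card_erase_of_mem (mem_univ s)] at h
        simpa using h
      have h7 : ∑ p, mu p * (pt p ^ S.card * T (S.piecewise m' m)) =
          (∑ p, mu p * pt p ^ S.card) * T (S.piecewise m' m) := by
        rw [Finset.sum_mul]
        exact Finset.sum_congr rfl fun p _ => by ring
      rw [h7, mu_pow _ hc]
      split_ifs <;> simp
  simp_rw [h6]
  rw [← Finset.sum_filter]
  have h8 : (univ.filter fun S : Finset (Fin 8) => S.card = 1) = powersetCard 1 univ := by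
    ext S; simp [mem_powersetCard]
  rw [h8, powersetCard_one, Finset.sum_map]
  refine Finset.sum_congr rfl fun r _ => ?_
  congr 1
  funext i
  by_cases h : i = r
  · subst h; simp [Finset.piecewise]
  · simp [Finset.piecewise, h]

lemma DDQ_add (T : Form8 H) (a b b' f : H) : DDQ T a (b + b') f = DDQ T a b f + DDQ T a b' f := by
  unfold DDQ
  rw [← Finset.sum_add_distrib]
  refine Finset.sum_congr rfl fun s _ => ?_
  rw [← Finset.sum_add_distrib]
  refine Finset.sum_congr rfl fun r _ => ?_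
  have h : (Function.update (fun _ => b + b') s 0 : Fin 8 → H) r =
      (Function.update (fun _ => b) s 0 : Fin 8 → H) r +
      (Function.update (fun _ => b') s 0 : Fin 8 → H) r := by
    by_cases h : r = s
    · subst h; simp
    · simp [h]
  rw [h, ContinuousMultilinearMap.map_update_add]

lemma DDQ_smul (T : Form8 H) (a b f : H) (x : ℝ) : DDQ T a (x • b) f = x * DDQ T a b f := by
  unfold DDQ
  rw [Finset.mul_sum]
  refine Finset.sum_congr rfl fun s _ => ?_
  rw [Finset.mul_sum]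
  refine Finset.sum_congr rfl fun r _ => ?_
  have h : (Function.update (fun _ => x • b) s 0 : Fin 8 → H) r =
      x • (Function.update (fun _ => b) s 0 : Fin 8 → H) r := by
    by_cases h : r = s
    · subst h; simp
    · simp [h]
  rw [h, ContinuousMultilinearMap.map_update_smul, smul_eq_mul]

/-- the mixed derivative as a linear map -/
noncomputable def DDQl (T : Form8 H) (a f : H) : H →ₗ[ℝ] ℝ where
  toFun b := DDQ T a b f
  map_add' b b' := DDQ_add T a b b' f
  map_smul' c b := by simp [DDQ_smul]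

lemma lev_two {T : Form8 H} {E : Submodule ℝ H} {c : ℝ} (hc : 0 ≤ c) (h : Lev T E c)
    {a a' b f : H} (haE : a ∈ E) (haE' : a' ∈ E) (hbE : b ∈ E) (hfE : f ∈ Eᗮ)
    (ha : ‖a‖ = 1) (ha' : ‖a'‖ = 1) (hb : ‖b‖ = 1) (hab : ⟪a, b⟫ = 0) (hab' : ⟪a', b⟫ = 0) :
    |DDQ T a b f - DDQ T a' b f| ≤ 468750 * c * ‖f‖ := by
  obtain ⟨B, hB⟩ := h
  have h1 := weights_bound hc hB haE hbE hfE ha hb hab mu 3 mu_abs
  have h2 := weights_bound hc hB haE' hbE hfE ha' hb hab' mu 3 mu_abs
  rw [mu_even, mu_odd, sum_mu_DQ] at h1 h2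
  have h3 : DDQ T a b f - DDQ T a' b f = (DDQ T a b f - (0 * B a f + 1 * B b f)) -
      (DDQ T a' b f - (0 * B a' f + 1 * B b f)) := by ring
  rw [h3]
  refine (abs_sub _ _).trans ?_
  linarith

/-- From the bound of a linear functional to the sum of squares over an orthonormal family. -/
lemma sum_sq_le {κ : Type} [Fintype κ] [DecidableEq κ] (ζ : H →ₗ[ℝ] ℝ) {v : κ → H}
    (hv : Orthonormal ℝ v) {C : ℝ} (hC : 0 ≤ C)
    (h : ∀ g ∈ Submodule.span ℝ (Set.range v), ‖g‖ = 1 → |ζ g| ≤ C) : ∑ m, (ζ (v m)) ^ 2 ≤ C ^ 2 := by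
  set S := ∑ m, (ζ (v m)) ^ 2 with hS
  have hS0 : 0 ≤ S := Finset.sum_nonneg fun _ _ => sq_nonneg _
  rcases hS0.eq_or_lt with h0 | h0
  · rw [← h0]; positivity
  set g := ∑ m, ζ (v m) • v m with hg
  have hg1 : ‖g‖ ^ 2 = S := by
    rw [← real_inner_self_eq_norm_sq, hg, hv.inner_sum]
    rw [hS]
    refine Finset.sum_congr rfl fun m _ => ?_
    simp [sq]
  have hg2 : 0 < ‖g‖ := by
    rcases (norm_nonneg g).eq_or_lt with h1 | h1
    · rw [← h1] at hg1; norm_num at hg1; linarith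
    · exact h1
  have hgs : g ∈ Submodule.span ℝ (Set.range v) :=
    Submodule.sum_mem _ fun m _ => Submodule.smul_mem _ _ (Submodule.subset_span ⟨m, rfl⟩)
  have h2 := h (‖g‖⁻¹ • g) (Submodule.smul_mem _ _ hgs)
    (by rw [norm_smul, norm_inv, norm_norm, inv_mul_cancel₀ hg2.ne'])
  have h3 : ζ g = S := by
    rw [hg, map_sum, hS]
    refine Finset.sum_congr rfl fun m _ => ?_
    rw [map_smul, smul_eq_mul, sq]
  rw [map_smul, h3, smul_eq_mul, ← hg1, abs_of_nonneg (by positivity)] at h2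
  have h4 : ‖g‖⁻¹ * ‖g‖ ^ 2 = ‖g‖ := by field_simp
  rw [h4] at h2
  rw [← hg1]
  exact pow_le_pow_left₀ hg2.le h2 2

end H811
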