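import Pool.Agent.helper811_gap.Good

/-! The uniform gap. -/

set_option autoImplicit false
set_option linter.unusedSectionVars false

open Finset Module Real

namespace H811

/-- the size of the perturbation -/
noncomputable def dl : ℝ := c0 / 2560
/-- the square root of the loss -/
noncomputable def rr : ℝ := c0 * dl / 160000
/-- the gap -/
noncomputable def ep : ℝ := rr ^ 2 / 255

lemma dl_pos : 0 < dl := by have := c0_pos; unfold dl; positivity
lemma rr_pos : 0 < rr := by have := c0_pos; have := dl_pos; unfold rr; positivity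
lemma ep_pos : 0 < ep := by have := rr_pos; unfold ep; positivity

lemma dl_le : dl ≤ 1 / 512000 := by
  have := c0_le
  have h : (1 : ℝ) / 10 ^ 29 ≤ 1 / 512000 := by norm_num
  have := c0_pos
  unfold dl
  linarith

lemma rr_le : rr ≤ 1 / 1000 := by
  have h1 := c0_pos
  have h2 : c0 ≤ 1 := c0_le.trans (by norm_num)
  have h3 := dl_le
  have h4 := dl_pos
  unfold rr
  have : c0 * dl ≤ 1 * (1 / 512000) := by gcongr
  linarith

lemma ep_le : ep ≤ 1 := by
  have h1 := rr_le
  have h2 := rr_pos
  unfold ep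
  have : rr ^ 2 ≤ 1 := by nlinarith
  linarith

lemma ep_pow : (1 + ep) ^ 8 ≤ 1 + rr ^ 2 := by
  have h1 := ep_le
  have h2 := ep_pos
  have h3 : (1 + ep) ^ 8 ≤ 1 + 255 * ep := by
    have p2 : ep ^ 2 ≤ ep := by nlinarith
    have pj : ∀ j : ℕ, 1 ≤ j → ep ^ j ≤ ep := fun j hj => by
      have := pow_le_pow_of_le_one h2.le h1 hj
      simpa using this
    have e : (1 + ep) ^ 8 = 1 + 8 * ep + 28 * ep ^ 2 + 56 * ep ^ 3 + 70 * ep ^ 4 + 56 * ep ^ 5 +
        28 * ep ^ 6 + 8 * ep ^ 7 + ep ^ 8 := by ring
    rw [e]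
    have := pj 2 (by norm_num)
    have := pj 3 (by norm_num)
    have := pj 4 (by norm_num)
    have := pj 5 (by norm_num)
    have := pj 6 (by norm_num)
    have := pj 7 (by norm_num)
    have := pj 8 (by norm_num)
    linarith
  refine h3.trans (le_of_eq ?_)
  unfold ep
  ring

lemma level_le : 500 * rr / dl + 500 * rr + 16 * dl ≤ c0 / 40 := by
  have h1 := c0_pos
  have h2 := dl_pos
  have h3 := dl_le
  have e1 : 500 * rr / dl = c0 / 320 := by unfold rr; field_simp; norm_num
  have e2 : 500 * rr ≤ c0 / 320 := by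
    unfold rr
    have : c0 * dl ≤ c0 * 1 := by gcongr; linarith
    linarith
  have e3 : 16 * dl = c0 / 160 := by unfold dl; ring
  rw [e1, e3]
  linarith

/-- The uniform gap: every projection of rank at least two and positive corank has norm at least
`1 + ep`, in a suitable space of dimension `n`. -/
theorem gap (n : ℕ) : ∃ (F : Type) (_ : NormedAddCommGroup F) (_ : NormedSpace ℝ F)
    (_ : FiniteDimensional ℝ F), finrank ℝ F = n ∧
      ∀ E : Submodule ℝ F, 2 ≤ finrank ℝ E → 1 ≤ finrank ℝ (F ⧸ E) →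
        ∀ P : F →L[ℝ] F, (∀ x, P x ∈ E) → (∀ x ∈ E, P x = x) → 1 + ep ≤ ‖P‖ := by
  rcases Nat.lt_or_ge n 3 with hn | hn
  · refine ⟨HE n, inferInstance, inferInstance, inferInstance, by simp, ?_⟩
    intro E h1 h2
    exfalso
    have h3 := Submodule.finrank_quotient_add_finrank E
    rw [finrank_euclideanSpace, Fintype.card_fin] at h3
    omega
  obtain ⟨T, hT, hgood⟩ := exists_good hn
  have hδ := dl_pos
  have hδ' := dl_le
  have hr := rr_pos
  have hr' := rr_le
  obtain ⟨F, i1, i2, φ, hφ⟩ := exists_normed (NN T dl) (NN_nonneg hT hδ.le hδ')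
    (NN_smul hT hδ.le hδ') (NN_add hT hδ.le hδ') (NN_eq_zero hT hδ.le hδ')
  have hfd : FiniteDimensional ℝ F := φ.finiteDimensional
  have hrank : finrank ℝ F = n := by rw [← φ.finrank_eq]; simp
  refine ⟨F, i1, i2, hfd, hrank, ?_⟩
  intro E hE1 hE2 P hPE hP
  by_contra hlt
  push Not at hlt
  set E' : Submodule ℝ (HE n) := E.comap φ.toLinearMap with hE'
  have hfr : finrank ℝ E' = finrank ℝ E := by
    have h1 : E' = E.map φ.symm.toLinearMap := by
      ext x
      simp only [hE', Submodule.mem_comap, Submodule.mem_map]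
      constructor
      · intro hx
        exact ⟨φ x, hx, by simp⟩
      · rintro ⟨y, hy, rfl⟩
        simpa using hy
    rw [h1]
    exact LinearEquiv.finrank_map_eq φ.symm E
  have hq := Submodule.finrank_quotient_add_finrank E
  set P' : HE n →ₗ[ℝ] HE n := φ.symm.toLinearMap ∘ₗ P.toLinearMap ∘ₗ φ.toLinearMap with hP'
  have hφP : ∀ x, φ (P' x) = P (φ x) := fun x => by simp [hP']
  have hlev := lev_of_proj hT hδ hδ' hr (by linarith) E' P'
    (fun x => by
      change φ (P' x) ∈ E
      rw [hφP]; exact hPE _)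
    (fun x hx => by
      apply φ.injective
      rw [hφP]
      exact hP _ hx)
    (fun x => by
      have h1 : NN T dl (P' x) ≤ (1 + ep) * NN T dl x := by
        rw [← hφ, ← hφ, hφP]
        refine (P.le_opNorm _).trans ?_
        exact mul_le_mul_of_nonneg_right hlt.le (norm_nonneg _)
      have h2 := pow_le_pow_left₀ (NN_nonneg hT hδ.le hδ' _) h1 8
      rw [mul_pow, NN_pow hT hδ.le hδ', NN_pow hT hδ.le hδ'] at h2
      refine h2.trans ?_
      exact mul_le_mul_of_nonneg_right ep_pow (gg_nonneg hT hδ.le hδ' x))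
  refine hgood E' ?_ ?_ (hlev.mono level_le)
  · rw [hfr]; exact hE1
  · rw [hfr]; omega

end H811
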