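import Pool.Agent.helper811_gap.Form

/-! Nets of isometries and of subspaces, and stability of the near linearity. -/

set_option autoImplicit false
set_option linter.unusedSectionVars false

open Finset MeasureTheory Metric Module Set
open scoped ENNReal

namespace H811

section net
variable {W : Type} [NormedAddCommGroup W] [NormedSpace ℝ W] [FiniteDimensional ℝ W]

theorem card_le_of_sep (s : Finset W) {δ : ℝ} (hδ : 0 < δ) (hs : ∀ c ∈ s, ‖c‖ ≤ 1)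
    (h : ∀ c ∈ s, ∀ d ∈ s, c ≠ d → δ ≤ ‖c - d‖) :
    (s.card : ℝ) ≤ (1 + 2 / δ) ^ finrank ℝ W := by
  borelize W
  let μ : Measure W := Measure.addHaar
  set ρ : ℝ := 1 + δ / 2 with hρ
  have δpos : 0 < δ / 2 := by positivity
  have ρpos : 0 < ρ := by positivity
  set A := ⋃ c ∈ s, ball (c : W) (δ / 2) with hA
  have D : Set.Pairwise (s : Set W) (Function.onFun Disjoint fun c => ball (c : W) (δ / 2)) := by
    rintro c hc d hd hcd
    apply ball_disjoint_ball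
    rw [dist_eq_norm]
    have := h c hc d hd hcd
    linarith
  have A_subset : A ⊆ ball (0 : W) ρ := by
    refine iUnion₂_subset fun x hx => ?_
    apply ball_subset_ball'
    rw [dist_zero_right, hρ]
    have := hs x hx
    linarith
  have I : (s.card : ℝ≥0∞) * ENNReal.ofReal ((δ / 2) ^ finrank ℝ W) * μ (ball 0 1) ≤
      ENNReal.ofReal (ρ ^ finrank ℝ W) * μ (ball 0 1) :=
    calc
      (s.card : ℝ≥0∞) * ENNReal.ofReal ((δ / 2) ^ finrank ℝ W) * μ (ball 0 1) = μ A := by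
        rw [hA, measure_biUnion_finset D fun c _ => measurableSet_ball]
        simp only [μ.addHaar_ball_of_pos _ δpos]
        simp only [Finset.sum_const, nsmul_eq_mul, mul_assoc]
      _ ≤ μ (ball (0 : W) ρ) := measure_mono A_subset
      _ = ENNReal.ofReal (ρ ^ finrank ℝ W) * μ (ball 0 1) := by
        simp only [μ.addHaar_ball_of_pos _ ρpos]
  have J : (s.card : ℝ≥0∞) * ENNReal.ofReal ((δ / 2) ^ finrank ℝ W)
      ≤ ENNReal.ofReal (ρ ^ finrank ℝ W) :=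
    (ENNReal.mul_le_mul_iff_left (measure_ball_pos _ _ zero_lt_one).ne' measure_ball_lt_top.ne).1 I
  have K : (s.card : ℝ) * (δ / 2) ^ finrank ℝ W ≤ ρ ^ finrank ℝ W := by
    have h1 := ENNReal.toReal_le_of_le_ofReal (pow_nonneg ρpos.le _) J
    rw [ENNReal.toReal_mul, ENNReal.toReal_ofReal (by positivity)] at h1
    simpa using h1
  have e : (1 + 2 / δ) = ρ / (δ / 2) := by
    rw [hρ]; field_simp; ring
  rw [e, div_pow, le_div_iff₀ (by positivity)]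
  exact K

/-- nets of subsets of the unit ball -/
theorem exists_net (S : Set W) (hS : ∀ x ∈ S, ‖x‖ ≤ 1) {δ : ℝ} (hδ : 0 < δ) :
    ∃ T : Finset W, (∀ t ∈ T, t ∈ S) ∧ (T.card : ℝ) ≤ (1 + 2 / δ) ^ finrank ℝ W ∧
      ∀ x ∈ S, ∃ t ∈ T, ‖x - t‖ ≤ δ := by
  classical
  set P : Finset W → Prop := fun T => (∀ t ∈ T, t ∈ S) ∧ ∀ c ∈ T, ∀ d ∈ T, c ≠ d → δ ≤ ‖c - d‖
    with hP
  have hb : ∀ T, P T → (T.card : ℝ) ≤ (1 + 2 / δ) ^ finrank ℝ W := fun T hT =>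
    card_le_of_sep T hδ (fun c hc => hS c (hT.1 c hc)) hT.2
  set B : ℕ := ⌊(1 + 2 / δ) ^ finrank ℝ W⌋₊ with hB
  have hb' : ∀ T, P T → T.card ≤ B := fun T hT => Nat.le_floor (hb T hT)
  have hex : ∃ m, ∃ T, P T ∧ T.card = m := ⟨0, ∅, ⟨by simp, by simp⟩, rfl⟩
  obtain ⟨T, hT, hTc⟩ : ∃ T, P T ∧ T.card = Nat.findGreatest (fun m => ∃ T, P T ∧ T.card = m) B := by
    obtain ⟨m, T0, hT0, hm⟩ := hex
    exact Nat.findGreatest_spec (P := fun m => ∃ T, P T ∧ T.card = m) (hb' T0 hT0)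
      ⟨T0, hT0, rfl⟩
  refine ⟨T, hT.1, hb T hT, fun x hx => ?_⟩
  by_contra hc
  push Not at hc
  have hxT : x ∉ T := by
    intro hxT
    have := hc x hxT
    rw [sub_self, norm_zero] at this
    linarith
  have hP' : P (insert x T) := by
    refine ⟨fun t ht => ?_, fun c hc' d hd hcd => ?_⟩
    · rcases Finset.mem_insert.1 ht with rfl | ht
      · exact hx
      · exact hT.1 t ht
    · rcases Finset.mem_insert.1 hc' with hcx | hc2
      · rcases Finset.mem_insert.1 hd with hdx | hd2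
        · exact absurd (hcx.trans hdx.symm) hcd
        · rw [hcx]
          exact (hc d hd2).le
      · rcases Finset.mem_insert.1 hd with hdx | hd2
        · rw [hdx, norm_sub_rev]
          exact (hc c hc2).le
        · exact hT.2 c hc2 d hd2 hcd
  have h1 : (insert x T).card ≤ Nat.findGreatest (fun m => ∃ T, P T ∧ T.card = m) B :=
    Nat.le_findGreatest (hb' _ hP') ⟨_, hP', rfl⟩
  rw [Finset.card_insert_of_notMem hxT, ← hTc] at h1
  omega

end net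

variable {H : Type} [NormedAddCommGroup H] [InnerProductSpace ℝ H] [FiniteDimensional ℝ H]

/-- closeness of subspaces -/
def Close (η : ℝ) (E E₀ : Submodule ℝ H) : Prop :=
  (∀ e ∈ E₀, ‖e - E.starProjection e‖ ≤ η * ‖e‖) ∧ ∀ f ∈ E₀ᗮ, ‖E.starProjection f‖ ≤ η * ‖f‖

lemma Close.compl {η : ℝ} {E E₀ : Submodule ℝ H} (h : Close η E E₀) : Close η Eᗮ E₀ᗮ := by
  constructor
  · intro e he
    rw [Submodule.starProjection_orthogonal_val]
    simpa using h.2 e he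
  · intro f hf
    rw [Submodule.orthogonal_orthogonal] at hf
    rw [Submodule.starProjection_orthogonal_val]
    exact h.1 f hf

section iso
variable {r : ℕ}

lemma close_of_iso {A A₀ : EuclideanSpace ℝ (Fin r) →L[ℝ] H} (hA : ∀ x, ‖A x‖ = ‖x‖)
    (hA₀ : ∀ x, ‖A₀ x‖ = ‖x‖) {η : ℝ} (h : ‖A - A₀‖ ≤ η) :
    Close η (LinearMap.range A.toLinearMap) (LinearMap.range A₀.toLinearMap) := by
  set E := LinearMap.range A.toLinearMap with hE
  have hd : ∀ x, ‖A x - A₀ x‖ ≤ η * ‖x‖ := fun x => by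
    have := (A - A₀).le_opNorm x
    rw [ContinuousLinearMap.sub_apply] at this
    exact this.trans (mul_le_mul_of_nonneg_right h (norm_nonneg _))
  constructor
  · rintro e ⟨x, rfl⟩
    change ‖A₀ x - E.starProjection (A₀ x)‖ ≤ η * ‖A₀ x‖
    have h1 : A x ∈ E := ⟨x, rfl⟩
    have h2 : A₀ x - E.starProjection (A₀ x) = Eᗮ.starProjection (A₀ x - A x) := by
      rw [map_sub, Submodule.starProjection_orthogonal_val, Submodule.starProjection_orthogonal_val,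
        (Submodule.starProjection_eq_self_iff).2 h1]
      simp
    rw [h2, hA₀]
    refine (Submodule.norm_starProjection_apply_le _ _).trans ?_
    rw [norm_sub_rev]
    exact hd x
  · intro f hf
    have h1 : E.starProjection f ∈ E := Submodule.starProjection_apply_mem E f
    obtain ⟨y, hy⟩ := h1
    have hy' : A y = E.starProjection f := hy
    have h2 : ‖E.starProjection f‖ ^ 2 = inner ℝ (A y - A₀ y) f := by
      have a : inner ℝ (A₀ y) f = 0 := (Submodule.mem_orthogonal _ f).1 hf _ ⟨y, rfl⟩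
      have b : inner ℝ (f - E.starProjection f) (E.starProjection f) = 0 :=
        Submodule.starProjection_inner_eq_zero f _ (Submodule.starProjection_apply_mem E f)
      rw [inner_sub_left, a, sub_zero, hy', real_inner_comm]
      rw [inner_sub_left, real_inner_self_eq_norm_sq] at b
      linarith
    have h3 : ‖E.starProjection f‖ = ‖y‖ := by rw [← hy', hA]
    have h4 : ‖E.starProjection f‖ ^ 2 ≤ (η * ‖E.starProjection f‖) * ‖f‖ := by
      rw [h2]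
      refine (real_inner_le_norm _ _).trans ?_
      rw [h3]
      exact mul_le_mul_of_nonneg_right (hd y) (norm_nonneg _)
    by_cases h0 : ‖E.starProjection f‖ = 0
    · rw [h0]
      have : 0 ≤ η := (norm_nonneg _).trans h
      positivity
    · have h5 : 0 < ‖E.starProjection f‖ := lt_of_le_of_ne (norm_nonneg _) (Ne.symm h0)
      have h6 : ‖E.starProjection f‖ * ‖E.starProjection f‖ ≤
          ‖E.starProjection f‖ * (η * ‖f‖) := by nlinarith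
      exact le_of_mul_le_mul_left h6 h5

lemma exists_iso (G : Submodule ℝ H) (hG : finrank ℝ G = r) :
    ∃ A : EuclideanSpace ℝ (Fin r) →L[ℝ] H, (∀ x, ‖A x‖ = ‖x‖) ∧
      LinearMap.range A.toLinearMap = G := by
  let b : OrthonormalBasis (Fin r) ℝ G := (stdOrthonormalBasis ℝ G).reindex (finCongr hG)
  let φ : EuclideanSpace ℝ (Fin r) →ₗᵢ[ℝ] H := G.subtypeₗᵢ.comp b.repr.symm.toLinearIsometry
  refine ⟨φ.toContinuousLinearMap, fun x => φ.norm_map x, ?_⟩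
  ext y
  constructor
  · rintro ⟨x, rfl⟩
    exact (b.repr.symm x).2
  · intro hy
    refine ⟨b.repr ⟨y, hy⟩, ?_⟩
    change ((b.repr.symm (b.repr ⟨y, hy⟩) : G) : H) = y
    simp

lemma finrank_of_iso {A : EuclideanSpace ℝ (Fin r) →L[ℝ] H} (hA : ∀ x, ‖A x‖ = ‖x‖) :
    finrank ℝ (LinearMap.range A.toLinearMap) = r := by
  have hinj : Function.Injective A.toLinearMap := by
    rw [← LinearMap.ker_eq_bot, LinearMap.ker_eq_bot']
    intro x hx
    have h1 : A x = 0 := hx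
    have := hA x
    rw [h1, norm_zero] at this
    exact norm_eq_zero.1 this.symm
  rw [LinearMap.finrank_range_of_inj hinj, finrank_euclideanSpace, Fintype.card_fin]

lemma norm_le_of_iso {A : EuclideanSpace ℝ (Fin r) →L[ℝ] H} (hA : ∀ x, ‖A x‖ = ‖x‖) :
    ‖A‖ ≤ 1 := by
  refine ContinuousLinearMap.opNorm_le_bound _ zero_le_one fun x => ?_
  rw [hA, one_mul]

end iso

/-- a net of the subspaces of a given dimension -/
theorem exists_subspace_net {n k : ℕ} (hn : finrank ℝ H = n) {η : ℝ} (hη : 0 < η) :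
    ∃ 𝓔 : Finset (Submodule ℝ H), (∀ E ∈ 𝓔, finrank ℝ E = k) ∧
      (𝓔.card : ℝ) ≤ (1 + 2 / η) ^ (n * min k (n - k)) ∧
      ∀ E : Submodule ℝ H, finrank ℝ E = k → ∃ E₀ ∈ 𝓔, Close η E E₀ := by
  classical
  by_cases hkn : n < k
  · refine ⟨∅, by simp, ?_, fun E hE => ?_⟩
    · simp only [Finset.card_empty, Nat.cast_zero]; positivity
    · have := E.finrank_le
      omega
  push Not at hkn
  have key : ∀ r : ℕ, ∃ 𝓔 : Finset (Submodule ℝ H), (∀ E ∈ 𝓔, finrank ℝ E = r) ∧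
      (𝓔.card : ℝ) ≤ (1 + 2 / η) ^ (n * r) ∧
      ∀ E : Submodule ℝ H, finrank ℝ E = r → ∃ E₀ ∈ 𝓔, Close η E E₀ := by
    intro r
    obtain ⟨T, h1, h2, h3⟩ := exists_net
      (W := EuclideanSpace ℝ (Fin r) →L[ℝ] H) {A | ∀ x, ‖A x‖ = ‖x‖}
      (fun A hA => norm_le_of_iso hA) hη
    refine ⟨T.image fun A => LinearMap.range A.toLinearMap, ?_, ?_, ?_⟩
    · intro E hE
      obtain ⟨A, hA, rfl⟩ := Finset.mem_image.1 hE
      exact finrank_of_iso (h1 A hA)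
    · have hf : finrank ℝ (EuclideanSpace ℝ (Fin r) →L[ℝ] H) = n * r := by
        rw [← (LinearMap.toContinuousLinearMap
          (𝕜 := ℝ) (E := EuclideanSpace ℝ (Fin r)) (F' := H)).finrank_eq,
          Module.finrank_linearMap, finrank_euclideanSpace, Fintype.card_fin, hn, mul_comm]
      rw [hf] at h2
      refine le_trans ?_ h2
      exact_mod_cast Finset.card_image_le
    · intro E hE
      obtain ⟨A, hA, hAE⟩ := exists_iso E hE
      obtain ⟨A₀, hA₀, hd⟩ := h3 A hA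
      refine ⟨_, Finset.mem_image_of_mem _ hA₀, ?_⟩
      rw [← hAE]
      exact close_of_iso hA (h1 A₀ hA₀) hd
  rcases le_total k (n - k) with h | h
  · obtain ⟨𝓔, h1, h2, h3⟩ := key k
    exact ⟨𝓔, h1, by rwa [min_eq_left h], h3⟩
  · obtain ⟨𝓔, h1, h2, h3⟩ := key (n - k)
    refine ⟨𝓔.image fun E => Eᗮ, ?_, ?_, ?_⟩
    · intro E hE
      obtain ⟨G, hG, rfl⟩ := Finset.mem_image.1 hE
      have a := Submodule.finrank_add_finrank_orthogonal G
      have b := h1 G hG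
      omega
    · rw [min_eq_right h]
      refine le_trans ?_ h2
      exact_mod_cast Finset.card_image_le
    · intro E hE
      have a := Submodule.finrank_add_finrank_orthogonal E
      obtain ⟨G₀, hG₀, hc⟩ := h3 Eᗮ (by omega)
      refine ⟨G₀ᗮ, Finset.mem_image_of_mem _ hG₀, ?_⟩
      have := hc.compl
      rwa [Submodule.orthogonal_orthogonal] at this

lemma prod_mix {e₀ e f : H} (he : ‖e‖ ≤ ‖e₀‖) (s i : Fin 8) :
    (∏ j, if j = i then ‖(Function.update (fun _ => e₀) s f : Fin 8 → H) i -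
        (Function.update (fun _ => e) s f : Fin 8 → H) i‖
      else max ‖(Function.update (fun _ => e₀) s f : Fin 8 → H) j‖
        ‖(Function.update (fun _ => e) s f : Fin 8 → H) j‖) ≤
      ‖e₀‖ ^ 6 * ‖e₀ - e‖ * ‖f‖ := by
  by_cases his : i = s
  · subst his
    rw [Finset.prod_eq_zero (mem_univ i)]
    · positivity
    · simp
  · rw [← Finset.mul_prod_erase univ _ (mem_univ i), ← Finset.mul_prod_erase (univ.erase i) _
      (Finset.mem_erase.2 ⟨Ne.symm his, mem_univ s⟩)]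
    have h1 : ∀ j ∈ (univ.erase i).erase s, (if j = i then
        ‖(Function.update (fun _ => e₀) s f : Fin 8 → H) i -
        (Function.update (fun _ => e) s f : Fin 8 → H) i‖
      else max ‖(Function.update (fun _ => e₀) s f : Fin 8 → H) j‖
        ‖(Function.update (fun _ => e) s f : Fin 8 → H) j‖) = ‖e₀‖ := by
      intro j hj
      have a := Finset.ne_of_mem_erase hj
      have b := Finset.ne_of_mem_erase (Finset.mem_of_mem_erase hj)
      rw [if_neg b, Function.update_of_ne a, Function.update_of_ne a, max_eq_left he]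
    rw [Finset.prod_congr rfl h1, if_pos rfl, if_neg (Ne.symm his), Function.update_self,
      Function.update_self, Function.update_of_ne his, Function.update_of_ne his, max_self,
      Finset.prod_const, Finset.card_erase_of_mem (Finset.mem_erase.2 ⟨Ne.symm his, mem_univ s⟩),
      Finset.card_erase_of_mem (mem_univ i)]
    have : (univ : Finset (Fin 8)).card - 1 - 1 = 6 := by simp
    rw [this]
    apply le_of_eq; ring

lemma DQ_diff (T : Form8 H) {e₀ e : H} (f : H) (he : ‖e‖ ≤ ‖e₀‖) :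
    |DQ T e₀ f - DQ T e f| ≤ 64 * ‖T‖ * ‖e₀‖ ^ 6 * ‖e₀ - e‖ * ‖f‖ := by
  unfold DQ
  rw [← Finset.sum_sub_distrib]
  refine (Finset.abs_sum_le_sum_abs _ _).trans ?_
  calc ∑ s : Fin 8, |T (Function.update (fun _ => e₀) s f) - T (Function.update (fun _ => e) s f)|
      ≤ ∑ s : Fin 8, ‖T‖ * ∑ i : Fin 8, ‖e₀‖ ^ 6 * ‖e₀ - e‖ * ‖f‖ := by
        refine Finset.sum_le_sum fun s _ => ?_
        have := T.norm_image_sub_le' (Function.update (fun _ => e₀) s f)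
          (Function.update (fun _ => e) s f)
        rw [Real.norm_eq_abs] at this
        refine this.trans (mul_le_mul_of_nonneg_left ?_ (norm_nonneg _))
        exact Finset.sum_le_sum fun i _ => prod_mix he s i
    _ = 64 * ‖T‖ * ‖e₀‖ ^ 6 * ‖e₀ - e‖ * ‖f‖ := by
        simp only [Finset.sum_const, Finset.card_univ, Fintype.card_fin, nsmul_eq_mul]
        push_cast; ring

/-- stability of near linearity under a small change of the subspace -/
theorem lev_stable {T : Form8 H} {E E₀ : Submodule ℝ H} {c η : ℝ} (hc : 0 ≤ c) (hη : 0 ≤ η)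
    (hcl : Close η E E₀) (h : Lev T E c) : Lev T E₀ (c + (120 * ‖T‖ + 6 * c) * η) := by
  obtain ⟨B, hB⟩ := h
  refine ⟨B.compl₁₂ E.starProjection.toLinearMap
    (LinearMap.id - E.starProjection.toLinearMap), fun e₀ he₀ f₀ hf₀ => ?_⟩
  have hBe : (B.compl₁₂ E.starProjection.toLinearMap
    (LinearMap.id - E.starProjection.toLinearMap)) e₀ f₀ =
      B (E.starProjection e₀) (f₀ - E.starProjection f₀) := rfl
  rw [hBe]
  set e := E.starProjection e₀ with he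
  set f := f₀ - E.starProjection f₀ with hf
  have heE : e ∈ E := Submodule.starProjection_apply_mem E e₀
  have hfE : f ∈ Eᗮ := Submodule.sub_starProjection_mem_orthogonal f₀
  have hne : ‖e‖ ≤ ‖e₀‖ := Submodule.norm_starProjection_apply_le _ _
  have hnf : ‖f‖ ≤ ‖f₀‖ := by
    rw [hf, ← Submodule.starProjection_orthogonal_val]
    exact Submodule.norm_starProjection_apply_le _ _
  have hde : ‖e₀ - e‖ ≤ η * ‖e₀‖ := hcl.1 e₀ he₀
  have hdf : ‖f₀ - f‖ ≤ η * ‖f₀‖ := by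
    rw [hf, sub_sub_cancel]; exact hcl.2 f₀ hf₀
  have hT : 0 ≤ ‖T‖ := norm_nonneg _
  have h1 : |DQ T e₀ f₀ - DQ T e₀ f| ≤ 8 * ‖T‖ * ‖e₀‖ ^ 7 * (η * ‖f₀‖) := by
    rw [← DQ_sub]
    refine (abs_DQ_le T _ _).trans ?_
    gcongr
  have h2 : |DQ T e₀ f - DQ T e f| ≤ 64 * ‖T‖ * ‖e₀‖ ^ 6 * (η * ‖e₀‖) * ‖f₀‖ := by
    refine (DQ_diff T f hne).trans ?_
    gcongr
  have h3 : |DQ T e f - ‖e‖ ^ 6 * B e f| ≤ c * ‖e₀‖ ^ 7 * ‖f₀‖ := by
    refine (hB e heE f hfE).trans ?_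
    gcongr
  have h4 : |B e f| ≤ (8 * ‖T‖ + c) * ‖e₀‖ * ‖f₀‖ := by
    by_cases h0 : e = 0
    · rw [h0]; simp; positivity
    have h5 : 0 < ‖e‖ := norm_pos_iff.2 h0
    have h6 : ‖e‖ ^ 6 * |B e f| ≤ ‖e‖ ^ 6 * ((8 * ‖T‖ + c) * ‖e‖ * ‖f‖) := by
      have a : ‖e‖ ^ 6 * |B e f| = |‖e‖ ^ 6 * B e f| := by
        rw [abs_mul, abs_of_pos (by positivity : 0 < ‖e‖ ^ 6)]
      have b : |‖e‖ ^ 6 * B e f| ≤ |DQ T e f| + |DQ T e f - ‖e‖ ^ 6 * B e f| := by
        have := abs_sub_abs_le_abs_sub (‖e‖ ^ 6 * B e f) (DQ T e f)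
        rw [abs_sub_comm] at this
        linarith
      rw [a]
      refine b.trans ?_
      refine (add_le_add (abs_DQ_le T e f) (hB e heE f hfE)).trans (le_of_eq ?_)
      ring
    have h7 := le_of_mul_le_mul_left h6 (by positivity)
    refine h7.trans ?_
    gcongr
  have h5 : |‖e₀‖ ^ 6 - ‖e‖ ^ 6| ≤ 6 * η * ‖e₀‖ ^ 6 := by
    have a : ‖e‖ ^ 6 ≤ ‖e₀‖ ^ 6 := by gcongr
    rw [abs_of_nonneg (by linarith)]
    have b : ‖e₀‖ - ‖e‖ ≤ η * ‖e₀‖ := (norm_sub_norm_le _ _).trans hde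
    have d : ‖e₀‖ ^ 6 - ‖e‖ ^ 6 = (‖e₀‖ - ‖e‖) * (‖e₀‖ ^ 5 + ‖e₀‖ ^ 4 * ‖e‖ + ‖e₀‖ ^ 3 * ‖e‖ ^ 2 +
        ‖e₀‖ ^ 2 * ‖e‖ ^ 3 + ‖e₀‖ * ‖e‖ ^ 4 + ‖e‖ ^ 5) := by ring
    rw [d]
    have g : ‖e₀‖ ^ 5 + ‖e₀‖ ^ 4 * ‖e‖ + ‖e₀‖ ^ 3 * ‖e‖ ^ 2 +
        ‖e₀‖ ^ 2 * ‖e‖ ^ 3 + ‖e₀‖ * ‖e‖ ^ 4 + ‖e‖ ^ 5 ≤ 6 * ‖e₀‖ ^ 5 := by
      have : ‖e₀‖ ^ 5 + ‖e₀‖ ^ 4 * ‖e‖ + ‖e₀‖ ^ 3 * ‖e‖ ^ 2 +
          ‖e₀‖ ^ 2 * ‖e‖ ^ 3 + ‖e₀‖ * ‖e‖ ^ 4 + ‖e‖ ^ 5 ≤
          ‖e₀‖ ^ 5 + ‖e₀‖ ^ 4 * ‖e₀‖ + ‖e₀‖ ^ 3 * ‖e₀‖ ^ 2 +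
          ‖e₀‖ ^ 2 * ‖e₀‖ ^ 3 + ‖e₀‖ * ‖e₀‖ ^ 4 + ‖e₀‖ ^ 5 := by gcongr
      refine this.trans (le_of_eq ?_); ring
    calc (‖e₀‖ - ‖e‖) * (‖e₀‖ ^ 5 + ‖e₀‖ ^ 4 * ‖e‖ + ‖e₀‖ ^ 3 * ‖e‖ ^ 2 +
        ‖e₀‖ ^ 2 * ‖e‖ ^ 3 + ‖e₀‖ * ‖e‖ ^ 4 + ‖e‖ ^ 5)
        ≤ (η * ‖e₀‖) * (6 * ‖e₀‖ ^ 5) := by
          apply mul_le_mul b g (by positivity) (by positivity)
      _ = 6 * η * ‖e₀‖ ^ 6 := by ring
  have h6 : DQ T e₀ f₀ - ‖e₀‖ ^ 6 * B e f = (DQ T e₀ f₀ - DQ T e₀ f) + (DQ T e₀ f - DQ T e f) +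
      (DQ T e f - ‖e‖ ^ 6 * B e f) - (‖e₀‖ ^ 6 - ‖e‖ ^ 6) * B e f := by ring
  rw [h6]
  have h7 : |(‖e₀‖ ^ 6 - ‖e‖ ^ 6) * B e f| ≤
      (6 * η * ‖e₀‖ ^ 6) * ((8 * ‖T‖ + c) * ‖e₀‖ * ‖f₀‖) := by
    rw [abs_mul]
    exact mul_le_mul h5 h4 (abs_nonneg _) (by positivity)
  calc |DQ T e₀ f₀ - DQ T e₀ f + (DQ T e₀ f - DQ T e f) + (DQ T e f - ‖e‖ ^ 6 * B e f) -
        (‖e₀‖ ^ 6 - ‖e‖ ^ 6) * B e f|
      ≤ |DQ T e₀ f₀ - DQ T e₀ f| + |DQ T e₀ f - DQ T e f| + |DQ T e f - ‖e‖ ^ 6 * B e f| +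
        |(‖e₀‖ ^ 6 - ‖e‖ ^ 6) * B e f| := by
        refine (abs_sub _ _).trans (add_le_add_left ?_ _)
        refine (abs_add_le _ _).trans (add_le_add_left ?_ _)
        exact abs_add_le _ _
    _ ≤ 8 * ‖T‖ * ‖e₀‖ ^ 7 * (η * ‖f₀‖) + 64 * ‖T‖ * ‖e₀‖ ^ 6 * (η * ‖e₀‖) * ‖f₀‖ +
        c * ‖e₀‖ ^ 7 * ‖f₀‖ + (6 * η * ‖e₀‖ ^ 6) * ((8 * ‖T‖ + c) * ‖e₀‖ * ‖f₀‖) := by
        linarith
    _ = (c + (120 * ‖T‖ + 6 * c) * η) * ‖e₀‖ ^ 7 * ‖f₀‖ := by ring

end H811
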