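import Pool.Agent.helper811_gap.Form

/-! The perturbed Euclidean norm. -/

set_option autoImplicit false
set_option linter.unusedSectionVars false

open Finset

namespace H811

/-- a linear isomorphism onto a normed space with a prescribed norm -/
theorem exists_normed {V : Type} [AddCommGroup V] [Module ℝ V] (N : V → ℝ)
    (h0 : ∀ x, 0 ≤ N x) (h1 : ∀ (c : ℝ) x, N (c • x) = |c| * N x)
    (h2 : ∀ x y, N (x + y) ≤ N x + N y) (h3 : ∀ x, N x = 0 → x = 0) :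
    ∃ (F : Type) (_ : NormedAddCommGroup F) (_ : NormedSpace ℝ F) (φ : V ≃ₗ[ℝ] F),
      ∀ x, ‖φ x‖ = N x := by
  let _ : Norm V := ⟨N⟩
  have core : NormedSpace.Core ℝ V :=
    { norm_nonneg := h0
      norm_smul := fun c x => by rw [Real.norm_eq_abs]; exact h1 c x
      norm_triangle := h2
      norm_eq_zero_iff := fun x => ⟨h3 x, fun h => by
        subst h
        have h := h1 0 (0 : V)
        rw [abs_zero, zero_mul, zero_smul] at h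
        exact h⟩ }
  let i1 : NormedAddCommGroup V := NormedAddCommGroup.ofCore core
  let i2 : NormedSpace ℝ V := NormedSpace.ofCore core
  exact ⟨V, i1, i2, LinearEquiv.refl ℝ V, fun x => rfl⟩

variable {H : Type} [NormedAddCommGroup H] [InnerProductSpace ℝ H]

/-- the perturbed eighth power of the norm -/
noncomputable def gg (T : Form8 H) (δ : ℝ) (x : H) : ℝ := ‖x‖ ^ 8 + δ * QQ T x

/-- its derivative -/
noncomputable def Dg (T : Form8 H) (δ : ℝ) (x v : H) : ℝ :=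
  8 * ‖x‖ ^ 6 * inner ℝ x v + δ * DQ T x v

lemma real_lower {p q t : ℝ} (hp : 0 ≤ p) (hq : 0 ≤ q) (ht : -(p * q) ≤ t) :
    (1 / 2000) * (p ^ 6 * q ^ 2 + q ^ 8) ≤ (p ^ 2 + 2 * t + q ^ 2) ^ 4 - p ^ 8 - 8 * p ^ 6 * t := by
  set y := 2 * t + q ^ 2 with hy
  have e : (p ^ 2 + 2 * t + q ^ 2) ^ 4 - p ^ 8 - 8 * p ^ 6 * t =
      4 * (p ^ 6 * q ^ 2) + y ^ 2 * (6 * p ^ 4 + 4 * p ^ 2 * y + y ^ 2) := by
    rw [hy]; ring
  rw [e]
  have h1 : y ^ 4 / 3 ≤ y ^ 2 * (6 * p ^ 4 + 4 * p ^ 2 * y + y ^ 2) := by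
    have : 0 ≤ y ^ 2 * ((2 / 3) * (y + 3 * p ^ 2) ^ 2) := by positivity
    nlinarith [this]
  have hpq : 0 ≤ p ^ 6 * q ^ 2 := by positivity
  rcases le_total (4 * p) q with h | h
  · have hy2 : q ^ 2 / 2 ≤ y := by rw [hy]; nlinarith
    have h3 : (q ^ 2 / 2) ^ 4 ≤ y ^ 4 := pow_le_pow_left₀ (by positivity) hy2 4
    have h4 : (q ^ 2 / 2) ^ 4 = q ^ 8 / 16 := by ring
    have h5 : 0 ≤ q ^ 8 := by positivity
    rw [h4] at h3
    linarith
  · have h3 : q ^ 6 ≤ (4 * p) ^ 6 := pow_le_pow_left₀ hq h 6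
    have h4 : q ^ 8 ≤ 4096 * (p ^ 6 * q ^ 2) := by
      calc q ^ 8 = q ^ 6 * q ^ 2 := by ring
        _ ≤ (4 * p) ^ 6 * q ^ 2 := by gcongr
        _ = 4096 * (p ^ 6 * q ^ 2) := by ring
    have h5 : 0 ≤ y ^ 4 := by positivity
    linarith

lemma norm_add_pow8 (x v : H) :
    ‖x + v‖ ^ 8 = (‖x‖ ^ 2 + 2 * inner ℝ x v + ‖v‖ ^ 2) ^ 4 := by
  rw [← norm_add_sq_real]; ring

lemma euclid_lower (x v : H) :
    (1 / 2000) * (‖x‖ ^ 6 * ‖v‖ ^ 2 + ‖v‖ ^ 8) ≤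
      ‖x + v‖ ^ 8 - ‖x‖ ^ 8 - 8 * ‖x‖ ^ 6 * inner ℝ x v := by
  rw [norm_add_pow8]
  apply real_lower (norm_nonneg _) (norm_nonneg _)
  have := abs_real_inner_le_norm x v
  rw [abs_le] at this
  exact this.1

/-- the first order inequality -/
lemma gg_first_order {T : Form8 H} (hT : ‖T‖ ≤ 1) {δ : ℝ} (hδ : 0 ≤ δ) (hδ' : δ ≤ 1 / 512000)
    (x v : H) : gg T δ x + Dg T δ x v ≤ gg T δ (x + v) := by
  have h1 := euclid_lower x v
  have h2 := (abs_le.1 (QQ_taylor T x v)).1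
  set R := ‖x‖ ^ 6 * ‖v‖ ^ 2 + ‖v‖ ^ 8 with hR
  have hR0 : 0 ≤ R := by positivity
  have h3 : 256 * ‖T‖ * R ≤ 256 * R := by nlinarith
  have h4 : δ * (256 * R) ≤ (1 / 2000) * R := by nlinarith
  have h5 : δ * (-(256 * R)) ≤ δ * (QQ T (x + v) - QQ T x - DQ T x v) :=
    mul_le_mul_of_nonneg_left (by linarith) hδ
  unfold gg Dg
  nlinarith

lemma Dg_add (T : Form8 H) (δ : ℝ) (x u v : H) : Dg T δ x (u + v) = Dg T δ x u + Dg T δ x v := by
  unfold Dg; rw [inner_add_right, DQ_add]; ring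

lemma Dg_smul (T : Form8 H) (δ : ℝ) (x v : H) (c : ℝ) : Dg T δ x (c • v) = c * Dg T δ x v := by
  unfold Dg; rw [inner_smul_right, DQ_smul]; ring

lemma gg_convex {T : Form8 H} (hT : ‖T‖ ≤ 1) {δ : ℝ} (hδ : 0 ≤ δ) (hδ' : δ ≤ 1 / 512000)
    (x y : H) {a b : ℝ} (ha : 0 ≤ a) (hb : 0 ≤ b) (hab : a + b = 1) :
    gg T δ (a • x + b • y) ≤ a * gg T δ x + b * gg T δ y := by
  set z := a • x + b • y with hz
  have h1 := gg_first_order hT hδ hδ' z (x - z)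
  have h2 := gg_first_order hT hδ hδ' z (y - z)
  rw [add_sub_cancel] at h1 h2
  have h3 : a * Dg T δ z (x - z) + b * Dg T δ z (y - z) = 0 := by
    rw [← Dg_smul, ← Dg_smul, ← Dg_add]
    have : a • (x - z) + b • (y - z) = 0 := by
      rw [smul_sub, smul_sub]
      have : a • x - a • z + (b • y - b • z) = (a • x + b • y) - (a + b) • z := by
        rw [add_smul]; abel
      rw [this, hab, one_smul, ← hz, sub_self]
    rw [this]
    have := Dg_smul T δ z (0 : H) 0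
    simpa using this
  have h4 := mul_le_mul_of_nonneg_left h1 ha
  have h5 := mul_le_mul_of_nonneg_left h2 hb
  have h6 : gg T δ z = a * gg T δ z + b * gg T δ z := by rw [← add_mul, hab, one_mul]
  rw [mul_add] at h4 h5
  linarith

lemma gg_lower {T : Form8 H} (hT : ‖T‖ ≤ 1) {δ : ℝ} (hδ : 0 ≤ δ) (hδ' : δ ≤ 1 / 512000)
    (x : H) : ‖x‖ ^ 8 / 2 ≤ gg T δ x := by
  have h1 := (abs_le.1 (abs_QQ_le T x)).1
  have h2 : 0 ≤ ‖x‖ ^ 8 := by positivity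
  have h3 : ‖T‖ * ‖x‖ ^ 8 ≤ 1 * ‖x‖ ^ 8 := by gcongr
  have h4 : δ * (-(1 * ‖x‖ ^ 8)) ≤ δ * QQ T x := mul_le_mul_of_nonneg_left (by linarith) hδ
  unfold gg
  nlinarith

lemma gg_upper {T : Form8 H} (hT : ‖T‖ ≤ 1) {δ : ℝ} (hδ : 0 ≤ δ) (hδ' : δ ≤ 1 / 512000)
    (x : H) : gg T δ x ≤ 2 * ‖x‖ ^ 8 := by
  have h1 := (abs_le.1 (abs_QQ_le T x)).2
  have h2 : 0 ≤ ‖x‖ ^ 8 := by positivity
  have h3 : ‖T‖ * ‖x‖ ^ 8 ≤ 1 * ‖x‖ ^ 8 := by gcongr
  have h4 : δ * QQ T x ≤ δ * (1 * ‖x‖ ^ 8) := mul_le_mul_of_nonneg_left (by linarith) hδ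
  unfold gg
  nlinarith

lemma gg_smul (T : Form8 H) (δ c : ℝ) (x : H) : gg T δ (c • x) = c ^ 8 * gg T δ x := by
  unfold gg
  rw [QQ_smul, norm_smul, mul_pow, Real.norm_eq_abs]
  have : |c| ^ 8 = c ^ 8 := by
    rw [show |c| ^ 8 = (|c| ^ 2) ^ 4 by ring, sq_abs]; ring
  rw [this]; ring

/-- the norm -/
noncomputable def NN (T : Form8 H) (δ : ℝ) (x : H) : ℝ := (gg T δ x) ^ ((1 : ℝ) / 8)

section
variable {T : Form8 H} (hT : ‖T‖ ≤ 1) {δ : ℝ} (hδ : 0 ≤ δ) (hδ' : δ ≤ 1 / 512000)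
include hT hδ hδ'

lemma gg_nonneg (x : H) : 0 ≤ gg T δ x :=
  le_trans (by positivity) (gg_lower hT hδ hδ' x)

lemma NN_nonneg (x : H) : 0 ≤ NN T δ x := Real.rpow_nonneg (gg_nonneg hT hδ hδ' x) _

lemma NN_pow (x : H) : NN T δ x ^ 8 = gg T δ x := by
  unfold NN
  rw [← Real.rpow_natCast, ← Real.rpow_mul (gg_nonneg hT hδ hδ' x)]
  norm_num

lemma NN_smul (c : ℝ) (x : H) : NN T δ (c • x) = |c| * NN T δ x := by
  have h1 : NN T δ (c • x) ^ 8 = (|c| * NN T δ x) ^ 8 := by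
    rw [NN_pow hT hδ hδ', mul_pow, NN_pow hT hδ hδ', gg_smul]
    have : |c| ^ 8 = c ^ 8 := by
      rw [show |c| ^ 8 = (|c| ^ 2) ^ 4 by ring, sq_abs]; ring
    rw [this]
  exact (pow_left_inj₀ (NN_nonneg hT hδ hδ' _)
    (mul_nonneg (abs_nonneg _) (NN_nonneg hT hδ hδ' _)) (by norm_num)).1 h1

lemma NN_eq_zero (x : H) (h : NN T δ x = 0) : x = 0 := by
  have h1 := NN_pow hT hδ hδ' x
  rw [h] at h1
  have h2 := gg_lower hT hδ hδ' x
  rw [← h1] at h2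
  have h3 : ‖x‖ ^ 8 ≤ 0 := by
    have : (0 : ℝ) ^ 8 = 0 := by norm_num
    linarith
  have h4 : ‖x‖ ^ 8 = 0 := le_antisymm h3 (by positivity)
  have h5 : ‖x‖ = 0 := by
    exact pow_eq_zero_iff (by norm_num) |>.1 h4
  exact norm_eq_zero.1 h5

lemma NN_add (x y : H) : NN T δ (x + y) ≤ NN T δ x + NN T δ y := by
  by_cases hx : x = 0
  · subst hx
    have := NN_nonneg hT hδ hδ' (0 : H)
    rw [zero_add]; linarith
  by_cases hy : y = 0
  · subst hy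
    have := NN_nonneg hT hδ hδ' (0 : H)
    rw [add_zero]; linarith
  set a := NN T δ x with ha
  set b := NN T δ y with hb
  have ha0 : 0 < a := lt_of_le_of_ne (NN_nonneg hT hδ hδ' x) fun h =>
    hx (NN_eq_zero hT hδ hδ' x h.symm)
  have hb0 : 0 < b := lt_of_le_of_ne (NN_nonneg hT hδ hδ' y) fun h =>
    hy (NN_eq_zero hT hδ hδ' y h.symm)
  have hab : 0 < a + b := by positivity
  have h1 := gg_convex hT hδ hδ' (a⁻¹ • x) (b⁻¹ • y) (a := a / (a + b)) (b := b / (a + b))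
    (by positivity) (by positivity) (by field_simp)
  have h2 : (a / (a + b)) • a⁻¹ • x + (b / (a + b)) • b⁻¹ • y = (a + b)⁻¹ • (x + y) := by
    rw [smul_smul, smul_smul, smul_add]
    congr 2 <;> field_simp
  have h3 : gg T δ (a⁻¹ • x) = 1 := by
    rw [gg_smul, ← NN_pow hT hδ hδ', ← ha, ← mul_pow, inv_mul_cancel₀ ha0.ne', one_pow]
  have h4 : gg T δ (b⁻¹ • y) = 1 := by
    rw [gg_smul, ← NN_pow hT hδ hδ', ← hb, ← mul_pow, inv_mul_cancel₀ hb0.ne', one_pow]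
  rw [h2, h3, h4, gg_smul] at h1
  have h5 : a / (a + b) * 1 + b / (a + b) * 1 = 1 := by field_simp
  rw [h5, inv_pow, inv_mul_le_iff₀ (by positivity), mul_one, ← NN_pow hT hδ hδ'] at h1
  exact le_of_pow_le_pow_left₀ (by norm_num) hab.le h1

end

end H811
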