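import Pool.Agent.helper811_gap.Tensor
import Pool.Agent.helper811_gap.Interp

/-! The probability that a random form has a nearly linear gradient on a given subspace. -/

set_option autoImplicit false
set_option linter.unusedSectionVars false

open Finset MeasureTheory ProbabilityTheory Real Module
open scoped ENNReal RealInnerProductSpace

namespace H811

/-- an orthonormal basis adapted to a subspace -/
lemma exists_adapted {n k k' : ℕ} (hn : k + k' = n) (E : Submodule ℝ (HE n))
    (hE : finrank ℝ E = k) :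
    ∃ u : OrthonormalBasis (Fin k ⊕ Fin k') ℝ (HE n),
      (∀ i, u (Sum.inl i) ∈ E) ∧ ∀ m, u (Sum.inr m) ∈ Eᗮ := by
  have hE' : finrank ℝ (Eᗮ : Submodule ℝ (HE n)) = k' := by
    have := Submodule.finrank_add_finrank_orthogonal E
    rw [finrank_euclideanSpace, Fintype.card_fin] at this
    omega
  let b₁ : OrthonormalBasis (Fin k) ℝ E := (stdOrthonormalBasis ℝ E).reindex (finCongr hE)
  let b₂ : OrthonormalBasis (Fin k') ℝ (Eᗮ : Submodule ℝ (HE n)) :=
    (stdOrthonormalBasis ℝ (Eᗮ : Submodule ℝ (HE n))).reindex (finCongr hE')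
  let v : Fin k ⊕ Fin k' → HE n := Sum.elim (fun i => (b₁ i : HE n)) (fun m => (b₂ m : HE n))
  have hv : Orthonormal ℝ v := by
    rw [orthonormal_iff_ite]
    have h1 := orthonormal_iff_ite.1 b₁.orthonormal
    have h2 := orthonormal_iff_ite.1 b₂.orthonormal
    rintro (i | m) (i' | m')
    · have := h1 i i'
      rw [Submodule.coe_inner] at this
      simpa [v] using this
    · have : ⟪(b₁ i : HE n), (b₂ m' : HE n)⟫ = 0 :=
        (Submodule.mem_orthogonal E _).1 (b₂ m').2 _ (b₁ i).2
      simpa [v] using this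
    · have : ⟪(b₂ m : HE n), (b₁ i' : HE n)⟫ = 0 := by
        rw [real_inner_comm]
        exact (Submodule.mem_orthogonal E _).1 (b₂ m).2 _ (b₁ i').2
      simpa [v] using this
    · have := h2 m m'
      rw [Submodule.coe_inner] at this
      simpa [v] using this
  refine ⟨OrthonormalBasis.mk hv ?_, ?_, ?_⟩
  · rw [top_le_iff]
    apply hv.linearIndependent.span_eq_top_of_card_eq_finrank'
    simp [hn]
  · intro i
    rw [OrthonormalBasis.coe_mk]
    exact (b₁ i).2
  · intro m
    rw [OrthonormalBasis.coe_mk]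
    exact (b₂ m).2

/-- the tensor of the derivative -/
noncomputable def dten {n : ℕ} (e f : HE n) : VE n :=
  ∑ s : Fin 8, ten (Function.update (fun _ => e) s f)

lemma DQ_Tm {n : ℕ} (t : VE n) (e f : HE n) : DQ (Tm t) e f = ⟪dten e f, t⟫ := by
  unfold DQ dten
  rw [sum_inner]
  exact Finset.sum_congr rfl fun s _ => Tm_eq_inner t _

/-- words with a last letter, a majority letter and a minority letter -/
def word {α : Type} (j : Fin 3) (a b c : α) : Fin 8 → α := fun r =>
  if r = 7 then c else if (r : ℕ) < 6 - (j : ℕ) then a else b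

lemma word_ne {α : Type} (j : Fin 3) (a b c : α) {r : Fin 8} (hr : r ≠ 7) :
    word j a b c r = a ∨ word j a b c r = b := by
  unfold word
  rw [if_neg hr]
  split_ifs
  · exact Or.inl rfl
  · exact Or.inr rfl

lemma DQ_word {n : ℕ} (j : Fin 3) (A B C e f : HE n) (hA : ⟪f, A⟫ = 0) (hB : ⟪f, B⟫ = 0) :
    DQ (Tm (ten (word j A B C))) e f =
      ⟪e, A⟫ ^ (6 - (j : ℕ)) * ⟪e, B⟫ ^ ((j : ℕ) + 1) * ⟪f, C⟫ := by
  unfold DQ
  rw [Finset.sum_eq_single (7 : Fin 8)]
  · rw [Tm_eq_inner, inner_ten, Fin.prod_univ_castSucc]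
    have h1 : ∀ r : Fin 7, ⟪(Function.update (fun _ => e) (7 : Fin 8) f : Fin 8 → HE n) r.castSucc,
        word j A B C r.castSucc⟫ =
        if (r : ℕ) < 6 - (j : ℕ) then ⟪e, A⟫ else ⟪e, B⟫ := by
      intro r
      have hr : (r.castSucc : Fin 8) ≠ 7 := (Fin.castSucc_lt_last r).ne
      rw [Function.update_of_ne hr]
      unfold word
      rw [if_neg hr]
      simp only [Fin.val_castSucc]
      split_ifs <;> rfl
    have h2 : ⟪(Function.update (fun _ => e) (7 : Fin 8) f : Fin 8 → HE n) (Fin.last 7),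
        word j A B C (Fin.last 7)⟫ = ⟪f, C⟫ := by
      rw [show (Fin.last 7 : Fin 8) = 7 from rfl, Function.update_self]
      simp [word]
    simp_rw [h1, h2]
    congr 1
    fin_cases j <;> simp [Fin.prod_univ_succ] <;> ring
  · intro s _ hs
    rw [Tm_eq_inner, inner_ten]
    apply Finset.prod_eq_zero (mem_univ s)
    rw [Function.update_self]
    rcases word_ne j A B C hs with h | h
    · rw [h]; exact hA
    · rw [h]; exact hB
  · simp

end H811
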