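import Pool.Agent.helper811_gap.Prob

/-! First case: the codimension is not too small. -/

set_option autoImplicit false
set_option linter.unusedSectionVars false

open Finset MeasureTheory ProbabilityTheory Real Module
open scoped ENNReal RealInnerProductSpace

namespace H811

lemma tenBasis_word {n : ℕ} {ι : Type} [Fintype ι] [DecidableEq ι]
    (u : OrthonormalBasis ι ℝ (HE n)) (j : Fin 3) (a b c : ι) :
    tenBasis u (word j a b c) = ten (word j (u a) (u b) (u c)) := by
  rw [tenBasis_apply]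
  congr 1
  funext r
  unfold word
  split_ifs <;> rfl

lemma orth_span {n : ℕ} {κ : Type} {E : Submodule ℝ (HE n)} {v : κ → HE n}
    (h : ∀ m, v m ∈ E) {g : HE n} (hg : g ∈ Submodule.span ℝ (Set.range v)) : g ∈ E := by
  have : Submodule.span ℝ (Set.range v) ≤ E := Submodule.span_le.2 (by rintro _ ⟨m, rfl⟩; exact h m)
  exact this hg

/-- the functional of the first case -/
noncomputable def Z1 {n k₁ k' : ℕ} (u : OrthonormalBasis (Fin (k₁ + 1) ⊕ Fin k') ℝ (HE n))
    (q : Fin (k₁ + 1) × Fin k₁ × Fin 3 × Fin k') : VE n →ₗ[ℝ] ℝ :=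
  innerₗ (VE n) (∑ p, lam q.2.2.1 p • dten
    (u (Sum.inl q.1) + pt p • u (Sum.inl (q.1.succAbove q.2.1))) (u (Sum.inr q.2.2.2)))

lemma Z1_apply {n k₁ k' : ℕ} (u : OrthonormalBasis (Fin (k₁ + 1) ⊕ Fin k') ℝ (HE n))
    (q : Fin (k₁ + 1) × Fin k₁ × Fin 3 × Fin k') (t : VE n) :
    Z1 u q t = ∑ p, lam q.2.2.1 p * DQ (Tm t)
      (u (Sum.inl q.1) + pt p • u (Sum.inl (q.1.succAbove q.2.1))) (u (Sum.inr q.2.2.2)) := by
  unfold Z1
  simp only [innerₗ_apply_apply, sum_inner, inner_smul_left, DQ_Tm]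
  rfl

/-- the index of the first case -/
def J1 {k₁ k' : ℕ} (q : Fin (k₁ + 1) × Fin k₁ × Fin 3 × Fin k') :
    Fin 8 → Fin (k₁ + 1) ⊕ Fin k' :=
  word q.2.2.1 (Sum.inl q.1) (Sum.inl (q.1.succAbove q.2.1)) (Sum.inr q.2.2.2)

lemma Z1_kron {n k₁ k' : ℕ} (u : OrthonormalBasis (Fin (k₁ + 1) ⊕ Fin k') ℝ (HE n))
    (q q' : Fin (k₁ + 1) × Fin k₁ × Fin 3 × Fin k') :
    Z1 u q (tenBasis u (J1 q')) = if q = q' then 1 else 0 := by
  obtain ⟨i, l, j, m⟩ := q
  obtain ⟨i', l', j', m'⟩ := q'
  have h := orthonormal_iff_ite.1 u.orthonormal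
  rw [Z1_apply, J1, tenBasis_word]
  simp only
  set L := i.succAbove l with hL
  set L' := i'.succAbove l' with hL'
  have hLi : L ≠ i := Fin.succAbove_ne i l
  have hLi' : L' ≠ i' := Fin.succAbove_ne i' l'
  have h1 : ∀ p, DQ (Tm (ten (word j' (u (Sum.inl i')) (u (Sum.inl L')) (u (Sum.inr m')))))
      (u (Sum.inl i) + pt p • u (Sum.inl L)) (u (Sum.inr m)) =
      ((if i = i' then (1 : ℝ) else 0) + pt p * (if L = i' then 1 else 0)) ^ (6 - (j' : ℕ)) *
      ((if i = L' then (1 : ℝ) else 0) + pt p * (if L = L' then 1 else 0)) ^ ((j' : ℕ) + 1) *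
      (if m = m' then 1 else 0) := by
    intro p
    rw [DQ_word]
    · simp only [inner_add_left, inner_smul_left, h]
      simp
    · rw [h]; simp
    · rw [h]; simp
  simp_rw [h1]
  have hj1 : 0 < 6 - (j' : ℕ) := by omega
  have hj2 : 0 < (j' : ℕ) + 1 := by omega
  have hj3 : (j' : ℕ) ≤ 2 := by omega
  have hj4 : (j : ℕ) ≤ 2 := by omega
  by_cases hi : i = i'
  · subst hi
    have e1 : ¬ (i = L') := fun h => hLi' h.symm
    simp only [if_true, if_neg hLi, if_neg e1, mul_zero, add_zero, one_pow, one_mul, zero_add]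
    by_cases hl : l = l'
    · subst hl
      have e2 : L = L' := rfl
      simp only [if_pos e2, mul_one]
      simp_rw [← mul_assoc]
      rw [← Finset.sum_mul, lam_pow j _ (by omega) (by omega)]
      by_cases hj : j = j'
      · subst hj
        by_cases hm : m = m'
        · subst hm; simp
        · simp [hm]
      · have : ¬ ((j' : ℕ) + 1 = (j : ℕ) + 1) := fun h => hj (Fin.ext (by omega))
        rw [if_neg this, zero_mul, if_neg]
        intro h
        simp only [Prod.mk.injEq] at h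
        exact hj h.2.2.1
    · have e2 : ¬ (L = L') := fun h => hl (Fin.succAbove_right_injective h)
      simp only [if_neg e2, mul_zero]
      rw [Finset.sum_eq_zero, if_neg]
      · intro h
        simp only [Prod.mk.injEq] at h
        exact hl h.2.1
      · intro p _
        rw [zero_pow (by omega), zero_mul, mul_zero]
  · have hne : ¬ ((i, l, j, m) = (i', l', j', m')) := fun h => hi (by
      simp only [Prod.mk.injEq] at h; exact h.1)
    rw [if_neg hne]
    simp only [if_neg hi, zero_add]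
    by_cases hL1 : L = i'
    · have e2 : ¬ (L = L') := fun h => hLi' (h.symm.trans hL1)
      simp only [if_pos hL1, if_neg e2, mul_one, mul_zero, add_zero]
      by_cases hL2 : i = L'
      · simp only [if_pos hL2, one_pow, mul_one]
        simp_rw [← mul_assoc]
        rw [← Finset.sum_mul, lam_pow j _ (by omega) (by omega), if_neg (by omega), zero_mul]
      · simp only [if_neg hL2]
        refine Finset.sum_eq_zero fun p _ => ?_
        rw [zero_pow (n := (j' : ℕ) + 1) (by omega), mul_zero, zero_mul, mul_zero]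
    · simp only [if_neg hL1, mul_zero]
      refine Finset.sum_eq_zero fun p _ => ?_
      rw [zero_pow (n := 6 - (j' : ℕ)) (by omega), zero_mul, zero_mul, mul_zero]

/-- the first case -/
theorem prob_case1 {n k₁ k' : ℕ} (hk₁ : 1 ≤ k₁) (hk' : 1 ≤ k') (hn : k₁ + 1 + k' = n)
    (hnk : n ≤ 24 * k') (E : Submodule ℝ (HE n)) (hE : finrank ℝ E = k₁ + 1) {c₀ : ℝ} (hc : 0 < c₀)
    (hc1 : 5468750 * c₀ ≤ 1) :
    stdGaussian (VE n) {t | Lev (Tm t) E (c₀ * √n)} ≤
      ENNReal.ofReal ((5468750 * c₀) ^ (3 * ((k₁ + 1) * k'))) := by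
  obtain ⟨u, hu1, hu2⟩ := exists_adapted hn E hE
  have hn0 : 0 < n := by omega
  have hn0' : (0 : ℝ) < n := by exact_mod_cast hn0
  have hk0' : (0 : ℝ) < k' := by exact_mod_cast hk'
  set ρ : ℝ := 546875 * (c₀ * √n) / √k' with hρ
  have hρ0 : 0 < ρ := by positivity
  have hsb := small_ball_gauss (tenBasis u) (Z1 u) J1 (Z1_kron u) hρ0
  have hcard : Fintype.card (Fin (k₁ + 1) × Fin k₁ × Fin 3 × Fin k') =
      (k₁ + 1) * (k₁ * (3 * k')) := by simp
  refine (measure_mono ?_).trans (hsb.trans ?_)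
  · intro t ht
    have ht' : Lev (Tm t) E (c₀ * √n) := ht
    change ∑ q, (Z1 u q t) ^ 2 ≤ _
    have h1 : ∀ (i : Fin (k₁ + 1)) (l : Fin k₁) (j : Fin 3),
        ∑ m : Fin k', (Z1 u (i, l, j, m) t) ^ 2 ≤ (546875 * (c₀ * √n)) ^ 2 := by
      intro i l j
      set ζ : HE n →ₗ[ℝ] ℝ := ∑ p, lam j p • DQl (Tm t)
        (u (Sum.inl i) + pt p • u (Sum.inl (i.succAbove l))) with hζ
      have hζa : ∀ f, ζ f = ∑ p, lam j p * DQ (Tm t)
          (u (Sum.inl i) + pt p • u (Sum.inl (i.succAbove l))) f := by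
        intro f; rw [hζ]; simp
      have h2 := sum_sq_le ζ (v := fun m : Fin k' => u (Sum.inr m))
        (u.orthonormal.comp _ Sum.inr_injective) (C := 546875 * (c₀ * √n)) (by positivity)
        (by
          intro g hg hg1
          rw [hζa]
          have := lev_one (by positivity) ht' (hu1 i) (hu1 (i.succAbove l)) (orth_span hu2 hg)
            (u.norm_eq_one _) (u.norm_eq_one _) (by
              rw [orthonormal_iff_ite.1 u.orthonormal, if_neg]
              simp only [Sum.inl.injEq]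
              exact (Fin.succAbove_ne i l).symm) j
          rw [hg1, mul_one] at this
          exact this)
      refine le_trans (le_of_eq ?_) h2
      refine Finset.sum_congr rfl fun m _ => ?_
      rw [Z1_apply, hζa]
    rw [hcard]
    simp_rw [Fintype.sum_prod_type]
    calc ∑ i : Fin (k₁ + 1), ∑ l : Fin k₁, ∑ j : Fin 3, ∑ m : Fin k', (Z1 u (i, l, j, m) t) ^ 2
        ≤ ∑ i : Fin (k₁ + 1), ∑ l : Fin k₁, ∑ j : Fin 3, (546875 * (c₀ * √n)) ^ 2 :=
          Finset.sum_le_sum fun i _ => Finset.sum_le_sum fun l _ => Finset.sum_le_sum fun j _ =>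
            h1 i l j
      _ = (((k₁ + 1) * (k₁ * (3 * k')) : ℕ) : ℝ) * ρ ^ 2 := by
          rw [hρ, div_pow, Real.sq_sqrt hk0'.le]
          simp only [Finset.sum_const, Finset.card_univ, Fintype.card_fin, nsmul_eq_mul]
          push_cast
          field_simp
  · apply ENNReal.ofReal_le_ofReal
    rw [hcard]
    have h3 : 2 * ρ ≤ 5468750 * c₀ := by
      have h4 : √n ≤ 5 * √k' := by
        rw [show (5 : ℝ) = √25 by rw [show (25 : ℝ) = 5 ^ 2 by norm_num]; simp,
          ← Real.sqrt_mul (by norm_num)]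
        apply Real.sqrt_le_sqrt
        have : (n : ℝ) ≤ 24 * k' := by exact_mod_cast hnk
        linarith
      have h5 : 0 < √(k' : ℝ) := Real.sqrt_pos.2 hk0'
      rw [hρ, ← mul_div_assoc, div_le_iff₀ h5]
      nlinarith
    calc (2 * ρ) ^ ((k₁ + 1) * (k₁ * (3 * k'))) ≤ (5468750 * c₀) ^ ((k₁ + 1) * (k₁ * (3 * k'))) :=
          pow_le_pow_left₀ (by positivity) h3 _
      _ ≤ (5468750 * c₀) ^ (3 * ((k₁ + 1) * k')) := by
          apply pow_le_pow_of_le_one (by positivity) hc1
          calc 3 * ((k₁ + 1) * k') = (k₁ + 1) * (1 * (3 * k')) := by ring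
            _ ≤ (k₁ + 1) * (k₁ * (3 * k')) := by gcongr

end H811
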