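import Pool.Agent.helper811_gap.Prob1

/-! Second case: the codimension is small. -/

set_option autoImplicit false
set_option linter.unusedSectionVars false

open Finset MeasureTheory ProbabilityTheory Real Module
open scoped ENNReal RealInnerProductSpace

namespace H811

section
variable {n k₂ k' : ℕ}

/-- the index of the main letter -/
def ia (k₂ : ℕ) (i : Fin 4) : Fin (5 + k₂) := Fin.castAdd k₂ i.succ
/-- the index of the reference letter -/
def i0 (k₂ : ℕ) : Fin (5 + k₂) := Fin.castAdd k₂ (0 : Fin 5)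
/-- the index of the second letter -/
def ib {k₂ : ℕ} (l : Fin k₂) : Fin (5 + k₂) := Fin.natAdd 5 l

lemma ia_ne_i0 (i : Fin 4) : ia k₂ i ≠ i0 k₂ := by
  intro h
  have := congrArg Fin.val h
  simp [ia, i0] at this

lemma ia_ne_ib (i : Fin 4) (l : Fin k₂) : ia k₂ i ≠ ib l := by
  intro h
  have := congrArg Fin.val h
  simp [ia, ib] at this
  omega

lemma i0_ne_ib (l : Fin k₂) : i0 k₂ ≠ ib l := by
  intro h
  have := congrArg Fin.val h
  simp [i0, ib] at this
  omega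

lemma ia_inj {i i' : Fin 4} : ia k₂ i = ia k₂ i' ↔ i = i' := by
  constructor
  · intro h
    have := congrArg Fin.val h
    simp [ia] at this
    exact Fin.ext this
  · rintro rfl; rfl

lemma ib_inj {l l' : Fin k₂} : ib l = ib l' ↔ l = l' := by
  constructor
  · intro h
    have := congrArg Fin.val h
    simp [ib] at this
    exact Fin.ext this
  · rintro rfl; rfl

/-- the functional of the second case -/
noncomputable def Z2 (u : OrthonormalBasis (Fin (5 + k₂) ⊕ Fin k') ℝ (HE n))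
    (q : Fin 4 × Fin k₂ × Fin k') : VE n →ₗ[ℝ] ℝ :=
  innerₗ (VE n) (∑ p, mu p • (dten
    (u (Sum.inl (ia k₂ q.1)) + pt p • u (Sum.inl (ib q.2.1))) (u (Sum.inr q.2.2)) -
    dten (u (Sum.inl (i0 k₂)) + pt p • u (Sum.inl (ib q.2.1))) (u (Sum.inr q.2.2))))

lemma Z2_apply (u : OrthonormalBasis (Fin (5 + k₂) ⊕ Fin k') ℝ (HE n))
    (q : Fin 4 × Fin k₂ × Fin k') (t : VE n) :
    Z2 u q t = ∑ p, mu p * (DQ (Tm t)
      (u (Sum.inl (ia k₂ q.1)) + pt p • u (Sum.inl (ib q.2.1))) (u (Sum.inr q.2.2)) -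
      DQ (Tm t) (u (Sum.inl (i0 k₂)) + pt p • u (Sum.inl (ib q.2.1))) (u (Sum.inr q.2.2))) := by
  unfold Z2
  simp only [innerₗ_apply_apply, sum_inner, inner_smul_left, inner_sub_left, DQ_Tm]
  rfl

lemma Z2_apply' (u : OrthonormalBasis (Fin (5 + k₂) ⊕ Fin k') ℝ (HE n))
    (q : Fin 4 × Fin k₂ × Fin k') (t : VE n) :
    Z2 u q t = DDQ (Tm t) (u (Sum.inl (ia k₂ q.1))) (u (Sum.inl (ib q.2.1))) (u (Sum.inr q.2.2)) -
      DDQ (Tm t) (u (Sum.inl (i0 k₂))) (u (Sum.inl (ib q.2.1))) (u (Sum.inr q.2.2)) := by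
  rw [Z2_apply, ← sum_mu_DQ, ← sum_mu_DQ, ← Finset.sum_sub_distrib]
  exact Finset.sum_congr rfl fun p _ => by ring

/-- the index of the second case -/
def J2 (q : Fin 4 × Fin k₂ × Fin k') : Fin 8 → Fin (5 + k₂) ⊕ Fin k' :=
  word 0 (Sum.inl (ia k₂ q.1)) (Sum.inl (ib q.2.1)) (Sum.inr q.2.2)

lemma Z2_kron (u : OrthonormalBasis (Fin (5 + k₂) ⊕ Fin k') ℝ (HE n))
    (q q' : Fin 4 × Fin k₂ × Fin k') :
    Z2 u q (tenBasis u (J2 q')) = if q = q' then 1 else 0 := by
  obtain ⟨i, l, m⟩ := q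
  obtain ⟨i', l', m'⟩ := q'
  have h := orthonormal_iff_ite.1 u.orthonormal
  rw [Z2_apply, J2, tenBasis_word]
  simp only
  have h1 : ∀ (x : Fin (5 + k₂)) (_ : x ≠ ib l') (_ : ib l ≠ x) p,
      DQ (Tm (ten (word 0 (u (Sum.inl (ia k₂ i'))) (u (Sum.inl (ib l'))) (u (Sum.inr m')))))
      (u (Sum.inl x) + pt p • u (Sum.inl (ib l))) (u (Sum.inr m)) =
      (if x = ia k₂ i' then (1 : ℝ) else 0) ^ 6 *
      (pt p * (if l = l' then 1 else 0)) * (if m = m' then 1 else 0) := by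
    intro x hx1 _ p
    rw [DQ_word]
    · simp only [inner_add_left, inner_smul_left, h]
      simp [hx1, (ia_ne_ib i' l).symm, ib_inj]
    · rw [h]; simp
    · rw [h]; simp
  have h2 := h1 (ia k₂ i) (ia_ne_ib i l') (ia_ne_ib i l).symm
  have h3 := h1 (i0 k₂) (i0_ne_ib l') (i0_ne_ib l).symm
  simp_rw [h2, h3, if_neg (ia_ne_i0 (k₂ := k₂) i').symm, ia_inj]
  have h4 := mu_pow 1 (by norm_num)
  simp only [pow_one, if_true] at h4
  by_cases hi : i = i'
  · by_cases hl : l = l'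
    · by_cases hm : m = m'
      · simp [hi, hl, hm, h4]
      · simp [hm]
    · simp [hl]
  · simp [hi]

end

/-- the second case -/
theorem prob_case2 {n k₂ k' : ℕ} (hk' : 1 ≤ k') (hn : 5 + k₂ + k' = n)
    (hnk : 24 * k' < n) (E : Submodule ℝ (HE n)) (hE : finrank ℝ E = 5 + k₂) {c₀ : ℝ} (hc : 0 < c₀)
    (hc1 : 5468750 * c₀ ≤ 1) :
    stdGaussian (VE n) {t | Lev (Tm t) E (c₀ * √n)} ≤
      ENNReal.ofReal ((5468750 * c₀) ^ (3 * ((5 + k₂) * k'))) := by
  obtain ⟨u, hu1, hu2⟩ := exists_adapted hn E hE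
  have hn0 : 0 < n := by omega
  have hn0' : (0 : ℝ) < n := by exact_mod_cast hn0
  have hk2 : 15 ≤ k₂ := by omega
  have hk0 : (0 : ℝ) < k₂ := by exact_mod_cast (by omega : 0 < k₂)
  set ρ : ℝ := 468750 * (c₀ * √n) / √k₂ with hρ
  have hρ0 : 0 < ρ := by positivity
  have hsb := small_ball_gauss (tenBasis u) (Z2 u) J2 (Z2_kron u) hρ0
  have hcard : Fintype.card (Fin 4 × Fin k₂ × Fin k') = 4 * (k₂ * k') := by simp
  refine (measure_mono ?_).trans (hsb.trans ?_)
  · intro t ht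
    have ht' : Lev (Tm t) E (c₀ * √n) := ht
    change ∑ q, (Z2 u q t) ^ 2 ≤ _
    have h1 : ∀ (i : Fin 4) (m : Fin k'),
        ∑ l : Fin k₂, (Z2 u (i, l, m) t) ^ 2 ≤ (468750 * (c₀ * √n)) ^ 2 := by
      intro i m
      set ζ : HE n →ₗ[ℝ] ℝ := DDQl (Tm t) (u (Sum.inl (ia k₂ i))) (u (Sum.inr m)) -
        DDQl (Tm t) (u (Sum.inl (i0 k₂))) (u (Sum.inr m)) with hζ
      have hinj : Function.Injective (fun l : Fin k₂ => (Sum.inl (ib l) : Fin (5 + k₂) ⊕ Fin k')) := by
        intro l l' h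
        exact ib_inj.1 (Sum.inl_injective h)
      have horth : ∀ (x : Fin (5 + k₂)) (_ : ∀ l : Fin k₂, x ≠ ib l),
          ∀ g ∈ Submodule.span ℝ (Set.range fun l : Fin k₂ => u (Sum.inl (ib l))),
          ⟪u (Sum.inl x), g⟫ = 0 := by
        intro x hx g hg
        induction hg using Submodule.span_induction with
        | mem y hy =>
          obtain ⟨l, rfl⟩ := hy
          rw [orthonormal_iff_ite.1 u.orthonormal, if_neg]
          intro h
          exact hx l (Sum.inl_injective h)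
        | zero => simp
        | add y z _ _ hy hz => rw [inner_add_right, hy, hz, add_zero]
        | smul c y _ hy => rw [inner_smul_right, hy, mul_zero]
      have h2 := sum_sq_le ζ (v := fun l : Fin k₂ => u (Sum.inl (ib l)))
        (u.orthonormal.comp _ hinj) (C := 468750 * (c₀ * √n)) (by positivity)
        (by
          intro g hg hg1
          have := lev_two (by positivity) ht' (hu1 (ia k₂ i)) (hu1 (i0 k₂))
            (orth_span (E := E) (fun l => hu1 (ib l)) hg) (hu2 m)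
            (u.norm_eq_one _) (u.norm_eq_one _) hg1
            (horth _ (fun l => ia_ne_ib i l) g hg) (horth _ (fun l => i0_ne_ib l) g hg)
          rw [u.norm_eq_one, mul_one] at this
          exact this)
      refine le_trans (le_of_eq ?_) h2
      refine Finset.sum_congr rfl fun l _ => ?_
      rw [Z2_apply', hζ]
      rfl
    rw [hcard]
    simp_rw [Fintype.sum_prod_type]
    calc ∑ i : Fin 4, ∑ l : Fin k₂, ∑ m : Fin k', (Z2 u (i, l, m) t) ^ 2
        = ∑ i : Fin 4, ∑ m : Fin k', ∑ l : Fin k₂, (Z2 u (i, l, m) t) ^ 2 :=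
          Finset.sum_congr rfl fun i _ => Finset.sum_comm
      _ ≤ ∑ i : Fin 4, ∑ m : Fin k', (468750 * (c₀ * √n)) ^ 2 :=
          Finset.sum_le_sum fun i _ => Finset.sum_le_sum fun m _ => h1 i m
      _ = ((4 * (k₂ * k') : ℕ) : ℝ) * ρ ^ 2 := by
          rw [hρ, div_pow, Real.sq_sqrt hk0.le]
          simp only [Finset.sum_const, Finset.card_univ, Fintype.card_fin, nsmul_eq_mul]
          push_cast
          field_simp
  · apply ENNReal.ofReal_le_ofReal
    rw [hcard]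
    have h3 : 2 * ρ ≤ 5468750 * c₀ := by
      have h4 : √n ≤ 2 * √k₂ := by
        rw [show (2 : ℝ) = √4 by rw [show (4 : ℝ) = 2 ^ 2 by norm_num]; simp,
          ← Real.sqrt_mul (by norm_num)]
        apply Real.sqrt_le_sqrt
        have : (n : ℝ) ≤ 4 * k₂ := by exact_mod_cast (by omega : n ≤ 4 * k₂)
        linarith
      have h5 : 0 < √(k₂ : ℝ) := Real.sqrt_pos.2 hk0
      rw [hρ, ← mul_div_assoc, div_le_iff₀ h5]
      nlinarith
    calc (2 * ρ) ^ (4 * (k₂ * k')) ≤ (5468750 * c₀) ^ (4 * (k₂ * k')) :=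
          pow_le_pow_left₀ (by positivity) h3 _
      _ ≤ (5468750 * c₀) ^ (3 * ((5 + k₂) * k')) := by
          apply pow_le_pow_of_le_one (by positivity) hc1
          calc 3 * ((5 + k₂) * k') = (3 * (5 + k₂)) * k' := by ring
            _ ≤ (4 * k₂) * k' := Nat.mul_le_mul_right _ (by omega)
            _ = 4 * (k₂ * k') := by ring

/-- both cases -/
theorem prob_lev {n k k' : ℕ} (hk : 2 ≤ k) (hk' : 1 ≤ k') (hn : k + k' = n)
    (E : Submodule ℝ (HE n)) (hE : finrank ℝ E = k) {c₀ : ℝ} (hc : 0 < c₀)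
    (hc1 : 5468750 * c₀ ≤ 1) :
    stdGaussian (VE n) {t | Lev (Tm t) E (c₀ * √n)} ≤
      ENNReal.ofReal ((5468750 * c₀) ^ (3 * (k * k'))) := by
  rcases Nat.lt_or_ge (24 * k') n with h | h
  · obtain ⟨k₂, rfl⟩ : ∃ k₂, k = 5 + k₂ := ⟨k - 5, by omega⟩
    exact prob_case2 hk' hn h E hE hc hc1
  · obtain ⟨k₁, rfl⟩ : ∃ k₁, k = k₁ + 1 := ⟨k - 1, by omega⟩
    exact prob_case1 (by omega) hk' hn h E hE hc hc1

end H811
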