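import Mathlib

/-! A small ball estimate for linear images of the standard Gaussian measure. -/

set_option autoImplicit false
set_option linter.unusedSectionVars false

open Finset MeasureTheory ProbabilityTheory Real
open scoped ENNReal

namespace H811

/-- one dimensional Gaussian integral -/
lemma one_dim {s : ℝ} (hs : 0 < s) (c : ℝ) :
    ∫⁻ y, ENNReal.ofReal (exp (-s * (c + y) ^ 2)) ∂(gaussianReal 0 1) ≤
      ENNReal.ofReal (√(1 / (2 * s))) := by
  rw [gaussianReal_of_var_ne_zero 0 one_ne_zero,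
    lintegral_withDensity_eq_lintegral_mul _ (measurable_gaussianPDF 0 1) (by fun_prop)]
  have h1 : ∀ y : ℝ, (gaussianPDF 0 1 * fun y => ENNReal.ofReal (exp (-s * (c + y) ^ 2))) y ≤
      ENNReal.ofReal ((√(2 * π))⁻¹) * ENNReal.ofReal (exp (-s * (c + y) ^ 2)) := by
    intro y
    rw [Pi.mul_apply]
    gcongr
    unfold gaussianPDF gaussianPDFReal
    apply ENNReal.ofReal_le_ofReal
    have : exp (-(y - 0) ^ 2 / (2 * ((1 : NNReal) : ℝ))) ≤ 1 := by
      rw [Real.exp_le_one_iff]
      have : 0 ≤ (y - 0) ^ 2 := sq_nonneg _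
      simp only [NNReal.coe_one, mul_one]
      linarith
    calc (√(2 * π * ((1 : NNReal) : ℝ)))⁻¹ * exp (-(y - 0) ^ 2 / (2 * ((1 : NNReal) : ℝ)))
        ≤ (√(2 * π * ((1 : NNReal) : ℝ)))⁻¹ * 1 := by gcongr
      _ = (√(2 * π))⁻¹ := by simp
  refine (lintegral_mono h1).trans ?_
  rw [lintegral_const_mul _ (by fun_prop)]
  have h2 : ∫⁻ y, ENNReal.ofReal (exp (-s * (c + y) ^ 2)) =
      ∫⁻ y, ENNReal.ofReal (exp (-s * y ^ 2)) :=
    lintegral_add_left_eq_self (fun y => ENNReal.ofReal (exp (-s * y ^ 2))) c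
  rw [h2, ← ofReal_integral_eq_lintegral_ofReal (integrable_exp_neg_mul_sq hs)
    (ae_of_all _ fun y => (exp_pos _).le), integral_gaussian, ← ENNReal.ofReal_mul (by positivity)]
  apply ENNReal.ofReal_le_ofReal
  apply le_of_eq
  rw [← Real.sqrt_inv, ← Real.sqrt_mul (by positivity)]
  congr 1
  have := Real.pi_pos
  field_simp

variable {ι κ : Type} [Fintype ι] [DecidableEq ι] [DecidableEq κ]

lemma apply_update {Y : κ → (ι → ℝ) →ₗ[ℝ] ℝ} {j : κ → ι}
    (hY : ∀ a b, Y a (Pi.single (j b) 1) = if a = b then 1 else 0) (a b : κ) (x : ι → ℝ) (y : ℝ) :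
    Y a (Function.update x (j b) y) = Y a x + if a = b then y - x (j b) else 0 := by
  have h1 : Function.update x (j b) y = x + (y - x (j b)) • (Pi.single (j b) (1 : ℝ)) := by
    funext i
    by_cases h : i = j b
    · subst h; simp
    · simp [h]
  rw [h1, map_add, map_smul, hY]
  split_ifs <;> simp

lemma laplace {Y : κ → (ι → ℝ) →ₗ[ℝ] ℝ} {j : κ → ι}
    (hY : ∀ a b, Y a (Pi.single (j b) 1) = if a = b then 1 else 0) {s : ℝ} (hs : 0 < s)
    (A : Finset κ) :
    ∫⁻ x, ∏ a ∈ A, ENNReal.ofReal (exp (-s * (Y a x) ^ 2))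
      ∂(Measure.pi fun _ : ι => gaussianReal 0 1) ≤ ENNReal.ofReal (√(1 / (2 * s))) ^ A.card := by
  have hYm : ∀ a, Measurable (fun x : ι → ℝ => Y a x) := fun a =>
    (LinearMap.continuous_of_finiteDimensional (Y a)).measurable
  induction A using Finset.induction_on with
  | empty => simp
  | insert b A hb ih =>
    set μ : ι → Measure ℝ := fun _ => gaussianReal 0 1 with hμ
    have hF : ∀ A : Finset κ, Measurable
        (fun x : ι → ℝ => ∏ a ∈ A, ENNReal.ofReal (exp (-s * (Y a x) ^ 2))) := by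
      intro A
      apply Finset.measurable_prod
      intro a _
      have := hYm a
      fun_prop
    have h1 : ∫⁻ x, ∏ a ∈ insert b A, ENNReal.ofReal (exp (-s * (Y a x) ^ 2)) ∂(Measure.pi μ) ≤
        ∫⁻ x, ENNReal.ofReal (√(1 / (2 * s))) *
          ∏ a ∈ A, ENNReal.ofReal (exp (-s * (Y a x) ^ 2)) ∂(Measure.pi μ) := by
      refine lintegral_le_of_lmarginal_le {j b} (hF _) ((hF A).const_mul _) ?_
      rw [lmarginal_singleton, lmarginal_singleton]
      intro x
      have e1 : ∀ y : ℝ, ∏ a ∈ A,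
          ENNReal.ofReal (exp (-s * (Y a (Function.update x (j b) y)) ^ 2)) =
          ∏ a ∈ A, ENNReal.ofReal (exp (-s * (Y a x) ^ 2)) := by
        intro y
        refine Finset.prod_congr rfl fun a ha => ?_
        have : a ≠ b := fun h => hb (h ▸ ha)
        rw [apply_update hY, if_neg this, add_zero]
      have e2 : ∀ y : ℝ, ∏ a ∈ insert b A,
          ENNReal.ofReal (exp (-s * (Y a (Function.update x (j b) y)) ^ 2)) =
          ENNReal.ofReal (exp (-s * ((Y b x - x (j b)) + y) ^ 2)) *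
          ∏ a ∈ A, ENNReal.ofReal (exp (-s * (Y a x) ^ 2)) := by
        intro y
        rw [Finset.prod_insert hb, e1, apply_update hY, if_pos rfl]
        congr 4
        ring
      simp only [e1, e2]
      rw [lintegral_mul_const _ (by fun_prop), lintegral_const, hμ]
      simp only [measure_univ, mul_one]
      gcongr
      exact one_dim hs _
    refine h1.trans ?_
    rw [lintegral_const_mul _ (hF A), Finset.card_insert_of_notMem hb, pow_succ, mul_comm]
    gcongr

/-- small ball estimate -/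
theorem small_ball [Fintype κ] {Y : κ → (ι → ℝ) →ₗ[ℝ] ℝ} {j : κ → ι}
    (hY : ∀ a b, Y a (Pi.single (j b) 1) = if a = b then 1 else 0) {ρ : ℝ} (hρ : 0 < ρ) :
    (Measure.pi fun _ : ι => gaussianReal 0 1)
      {x | ∑ a, (Y a x) ^ 2 ≤ Fintype.card κ * ρ ^ 2} ≤
      ENNReal.ofReal ((2 * ρ) ^ Fintype.card κ) := by
  set L := Fintype.card κ with hL
  set s : ℝ := 1 / (2 * ρ ^ 2) with hs
  have hs0 : 0 < s := by positivity
  set μ := (Measure.pi fun _ : ι => gaussianReal 0 1) with hμ
  have hYm : ∀ a, Measurable (fun x : ι → ℝ => Y a x) := fun a =>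
    (LinearMap.continuous_of_finiteDimensional (Y a)).measurable
  have hlap := laplace hY hs0 (univ : Finset κ)
  rw [Finset.card_univ, ← hL, ← hμ] at hlap
  have h1 : √(1 / (2 * s)) = ρ := by
    have : 1 / (2 * s) = ρ ^ 2 := by rw [hs]; field_simp
    rw [this, Real.sqrt_sq hρ.le]
  rw [h1] at hlap
  have h2 : μ {x | ∑ a, (Y a x) ^ 2 ≤ L * ρ ^ 2} ≤
      ∫⁻ x, ENNReal.ofReal (exp (s * (L * ρ ^ 2))) *
        ∏ a, ENNReal.ofReal (exp (-s * (Y a x) ^ 2)) ∂μ := by
    have hm : MeasurableSet {x : ι → ℝ | ∑ a, (Y a x) ^ 2 ≤ L * ρ ^ 2} := by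
      apply measurableSet_le
      · apply Finset.measurable_sum
        intro a _
        exact (hYm a).pow_const 2
      · exact measurable_const
    rw [← lintegral_indicator_one hm]
    refine lintegral_mono fun x => ?_
    by_cases hx : x ∈ {x : ι → ℝ | ∑ a, (Y a x) ^ 2 ≤ L * ρ ^ 2}
    · rw [Set.indicator_of_mem hx, Pi.one_apply]
      rw [← ENNReal.ofReal_prod_of_nonneg (fun a _ => (exp_pos _).le),
        ← ENNReal.ofReal_mul (exp_pos _).le, ← Real.exp_sum, ← Real.exp_add,
        ← ENNReal.ofReal_one]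
      apply ENNReal.ofReal_le_ofReal
      apply Real.one_le_exp
      rw [← Finset.mul_sum]
      have : ∑ a, (Y a x) ^ 2 ≤ L * ρ ^ 2 := hx
      nlinarith
    · rw [Set.indicator_of_notMem hx]
      exact zero_le
  refine h2.trans ?_
  rw [lintegral_const_mul]
  · refine (mul_le_mul_right hlap _).trans ?_
    rw [← ENNReal.ofReal_pow hρ.le, ← ENNReal.ofReal_mul (exp_pos _).le]
    apply ENNReal.ofReal_le_ofReal
    rw [mul_pow]
    gcongr
    have h3 : s * (L * ρ ^ 2) = L * (1 / 2) := by rw [hs]; field_simp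
    rw [h3, Real.exp_nat_mul]
    gcongr
    have h4 : exp (1 / 2) ^ 2 ≤ 2 ^ 2 := by
      rw [← Real.exp_nat_mul]
      norm_num
      have := Real.exp_one_lt_d9
      linarith
    exact le_of_pow_le_pow_left₀ (by norm_num) (by norm_num) h4
  · apply Finset.measurable_prod
    intro a _
    have := hYm a
    fun_prop

end H811
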