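import Pool.Agent.helper811_gap.Form
import Pool.Agent.helper811_gap.Net
import Pool.Agent.helper811_gap.Small

/-! Random eight-linear forms: rank one tensors, the Gaussian law and the norm bound. -/

set_option autoImplicit false
set_option linter.unusedSectionVars false

open Finset MeasureTheory ProbabilityTheory Real Module
open scoped ENNReal RealInnerProductSpace

namespace H811

/-- Euclidean space -/
abbrev HE (n : ℕ) := EuclideanSpace ℝ (Fin n)
/-- the coefficient space -/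
abbrev VE (n : ℕ) := EuclideanSpace ℝ (Fin 8 → Fin n)

/-- the form with given coefficients -/
noncomputable def Tm {n : ℕ} (t : VE n) : Form8 (HE n) :=
  ∑ I : Fin 8 → Fin n, t I • (ContinuousMultilinearMap.mkPiAlgebra ℝ (Fin 8) ℝ).compContinuousLinearMap
    (fun s => (EuclideanSpace.proj (I s) : HE n →L[ℝ] ℝ))

lemma Tm_apply {n : ℕ} (t : VE n) (x : Fin 8 → HE n) :
    Tm t x = ∑ I : Fin 8 → Fin n, t I * ∏ s, x s (I s) := by
  unfold Tm
  rw [_root_.sum_apply]
  refine Finset.sum_congr rfl fun I _ => ?_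
  simp [ContinuousMultilinearMap.mkPiAlgebra_apply]

/-- the rank one tensor -/
noncomputable def ten {n : ℕ} (x : Fin 8 → HE n) : VE n :=
  WithLp.toLp 2 (fun I => ∏ s, x s (I s))

lemma Tm_eq_inner {n : ℕ} (t : VE n) (x : Fin 8 → HE n) : Tm t x = ⟪ten x, t⟫ := by
  rw [Tm_apply, PiLp.inner_apply]
  refine Finset.sum_congr rfl fun I _ => ?_
  simp [ten]

lemma inner_ten {n : ℕ} (x y : Fin 8 → HE n) : ⟪ten x, ten y⟫ = ∏ s, ⟪x s, y s⟫ := by
  have h1 : ∀ s, ⟪x s, y s⟫ = ∑ i : Fin n, x s i * y s i := by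
    intro s
    rw [PiLp.inner_apply]
    refine Finset.sum_congr rfl fun i _ => ?_
    simp [mul_comm]
  simp_rw [h1]
  rw [Finset.prod_univ_sum, Fintype.piFinset_univ, PiLp.inner_apply]
  refine Finset.sum_congr rfl fun I _ => ?_
  rw [Finset.prod_mul_distrib]
  simp [ten, mul_comm]

lemma norm_ten {n : ℕ} (x : Fin 8 → HE n) : ‖ten x‖ = ∏ s, ‖x s‖ := by
  have h1 : ‖ten x‖ ^ 2 = (∏ s, ‖x s‖) ^ 2 := by
    rw [← real_inner_self_eq_norm_sq, inner_ten, ← Finset.prod_pow]
    refine Finset.prod_congr rfl fun s _ => ?_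
    rw [real_inner_self_eq_norm_sq]
  exact (pow_left_inj₀ (norm_nonneg _) (Finset.prod_nonneg fun _ _ => norm_nonneg _)
    (by norm_num)).1 h1

section basis
variable {n : ℕ} {ι : Type} [Fintype ι] [DecidableEq ι]

lemma orthonormal_ten (u : OrthonormalBasis ι ℝ (HE n)) :
    Orthonormal ℝ (fun I : Fin 8 → ι => ten (fun s => u (I s))) := by
  rw [orthonormal_iff_ite]
  intro I J
  rw [inner_ten]
  have h := orthonormal_iff_ite.1 u.orthonormal
  simp_rw [h]
  by_cases hIJ : I = J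
  · subst hIJ; simp
  · rw [if_neg hIJ]
    obtain ⟨s, hs⟩ := Function.ne_iff.1 hIJ
    exact Finset.prod_eq_zero (mem_univ s) (if_neg hs)

/-- the orthonormal basis of rank one tensors -/
noncomputable def tenBasis (u : OrthonormalBasis ι ℝ (HE n)) :
    OrthonormalBasis (Fin 8 → ι) ℝ (VE n) :=
  OrthonormalBasis.mk (orthonormal_ten u) (by
    rw [top_le_iff]
    apply (orthonormal_ten u).linearIndependent.span_eq_top_of_card_eq_finrank'
    have h1 : Fintype.card ι = n := by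
      have := Module.finrank_eq_card_basis u.toBasis
      simpa using this.symm
    simp [h1])

lemma tenBasis_apply (u : OrthonormalBasis ι ℝ (HE n)) (I : Fin 8 → ι) :
    tenBasis u I = ten (fun s => u (I s)) := by
  unfold tenBasis
  rw [OrthonormalBasis.coe_mk]

end basis

section gaussian
variable {V : Type} [NormedAddCommGroup V] [InnerProductSpace ℝ V] [FiniteDimensional ℝ V]
  [MeasurableSpace V] [BorelSpace V]

theorem small_ball_gauss {ι κ : Type} [Fintype ι] [DecidableEq ι] [Fintype κ] [DecidableEq κ]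
    (b : OrthonormalBasis ι ℝ V) (Z : κ → V →ₗ[ℝ] ℝ) (j : κ → ι)
    (hZ : ∀ a c, Z a (b (j c)) = if a = c then 1 else 0) {ρ : ℝ} (hρ : 0 < ρ) :
    stdGaussian V {t | ∑ a, (Z a t) ^ 2 ≤ Fintype.card κ * ρ ^ 2} ≤
      ENNReal.ofReal ((2 * ρ) ^ Fintype.card κ) := by
  have hZc : ∀ a, Measurable (fun t : V => Z a t) := fun a =>
    (LinearMap.continuous_of_finiteDimensional (Z a)).measurable
  have hm : MeasurableSet {t : V | ∑ a, (Z a t) ^ 2 ≤ Fintype.card κ * ρ ^ 2} := by
    apply measurableSet_le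
    · apply Finset.measurable_sum
      intro a _
      exact (hZc a).pow_const 2
    · exact measurable_const
  rw [stdGaussian_eq_map_pi_orthonormalBasis b, Measure.map_apply (by fun_prop) hm]
  let Φ : (ι → ℝ) →ₗ[ℝ] V :=
    { toFun := fun x => ∑ i, x i • b i
      map_add' := fun x y => by simp [add_smul, Finset.sum_add_distrib]
      map_smul' := fun c x => by simp [mul_smul, Finset.smul_sum] }
  have := small_ball (Y := fun a => (Z a).comp Φ) (j := j) (by
    intro a c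
    rw [← hZ a c]
    change Z a (∑ i, (Pi.single (j c) (1 : ℝ) : ι → ℝ) i • b i) = _
    congr 1
    rw [Finset.sum_eq_single (j c)]
    · simp
    · intro i _ hi
      rw [Pi.single_eq_of_ne hi, zero_smul]
    · simp) hρ
  exact this

lemma tail (v : V) (hv : ‖v‖ ≤ 1) {s : ℝ} (hs : 0 ≤ s) :
    stdGaussian V {t | s ≤ ⟪v, t⟫} ≤ ENNReal.ofReal (exp (-s ^ 2 / 2)) := by
  set μ := stdGaussian V with hμ
  set X : V → ℝ := fun t => ⟪v, t⟫ with hX
  have hmap : μ.map X = gaussianReal 0 (‖v‖ ^ 2).toNNReal := by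
    have h1 := IsGaussian.map_eq_gaussianReal (μ := μ) (innerSL ℝ v)
    rw [hμ, variance_dual_stdGaussian, integral_strongDual_stdGaussian, innerSL_apply_norm] at h1
    exact h1
  have hmgf := mgf_gaussianReal hmap s
  have hint : Integrable (fun t => exp (s * X t)) μ := by
    have h2 := integrable_exp_mul_gaussianReal (μ := 0) (v := (‖v‖ ^ 2).toNNReal) s
    rw [← hmap] at h2
    have hXm : Measurable X := by fun_prop
    exact (integrable_map_measure (by fun_prop) hXm.aemeasurable).1 h2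
  have h3 := measure_ge_le_exp_mul_mgf (μ := μ) (X := X) s hs hint
  rw [hmgf] at h3
  have h4 : exp (-s * s) * exp (0 * s + ((‖v‖ ^ 2).toNNReal : ℝ) * s ^ 2 / 2) ≤
      exp (-s ^ 2 / 2) := by
    rw [← Real.exp_add]
    apply Real.exp_le_exp.2
    rw [Real.coe_toNNReal _ (by positivity)]
    have : ‖v‖ ^ 2 ≤ 1 := by
      have := pow_le_pow_left₀ (norm_nonneg v) hv 2
      simpa using this
    nlinarith [sq_nonneg s]
  have h5 := h3.trans h4
  rw [Measure.real, ← ENNReal.le_ofReal_iff_toReal_le (measure_ne_top _ _) (exp_pos _).le] at h5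
  exact h5

lemma tail_abs (v : V) (hv : ‖v‖ ≤ 1) {s : ℝ} (hs : 0 ≤ s) :
    stdGaussian V {t | s ≤ |⟪v, t⟫|} ≤ ENNReal.ofReal (2 * exp (-s ^ 2 / 2)) := by
  have h1 : {t : V | s ≤ |⟪v, t⟫|} ⊆ {t | s ≤ ⟪v, t⟫} ∪ {t | s ≤ ⟪-v, t⟫} := by
    intro t ht
    have ht' : s ≤ |⟪v, t⟫| := ht
    rcases le_abs.1 ht' with h | h
    · exact Or.inl h
    · right
      change s ≤ ⟪-v, t⟫
      rw [inner_neg_left]; exact h
  refine (measure_mono h1).trans ((measure_union_le _ _).trans ?_)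
  rw [two_mul, ENNReal.ofReal_add (exp_pos _).le (exp_pos _).le]
  exact add_le_add (tail v hv hs) (tail (-v) (by rwa [norm_neg]) hs)

end gaussian

section bound
variable {H : Type} [NormedAddCommGroup H] [InnerProductSpace ℝ H]

lemma opNorm_le_of_net (T : Form8 H) (𝒩 : Finset H)
    (hnet : ∀ x : H, ‖x‖ ≤ 1 → ∃ y ∈ 𝒩, ‖x - y‖ ≤ 1 / 16) (h1 : ∀ y ∈ 𝒩, ‖y‖ ≤ 1) {s : ℝ}
    (hs : 0 ≤ s) (h : ∀ y : Fin 8 → H, (∀ i, y i ∈ 𝒩) → |T y| ≤ s) : ‖T‖ ≤ 2 * s := by
  have key : ∀ x : Fin 8 → H, (∀ i, ‖x i‖ ≤ 1) → |T x| ≤ s + ‖T‖ / 2 := by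
    intro x hx
    choose y hy hxy using fun i => hnet (x i) (hx i)
    have h2 := T.norm_image_sub_le' x y
    have h3 : ∀ i, (∏ j, if j = i then ‖x i - y i‖ else max ‖x j‖ ‖y j‖) ≤ 1 / 16 := by
      intro i
      rw [← Finset.mul_prod_erase univ _ (mem_univ i), if_pos rfl]
      have h4 : (∏ j ∈ univ.erase i, if j = i then ‖x i - y i‖ else max ‖x j‖ ‖y j‖) ≤ 1 := by
        apply Finset.prod_le_one
        · intro j _; split_ifs <;> positivity
        · intro j hj
          rw [if_neg (Finset.ne_of_mem_erase hj)]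
          exact max_le (hx j) (h1 _ (hy j))
      calc ‖x i - y i‖ * _ ≤ ‖x i - y i‖ * 1 := mul_le_mul_of_nonneg_left h4 (norm_nonneg _)
        _ ≤ 1 / 16 := by rw [mul_one]; exact hxy i
    have h5 : |T x - T y| ≤ ‖T‖ / 2 := by
      rw [Real.norm_eq_abs] at h2
      refine h2.trans ?_
      calc ‖T‖ * ∑ i, ∏ j, (if j = i then ‖x i - y i‖ else max ‖x j‖ ‖y j‖)
          ≤ ‖T‖ * ∑ i : Fin 8, (1 / 16 : ℝ) :=
            mul_le_mul_of_nonneg_left (Finset.sum_le_sum fun i _ => h3 i) (norm_nonneg _)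
        _ = ‖T‖ / 2 := by simp; ring
    have h6 := h y hy
    have h7 := abs_sub_abs_le_abs_sub (T x) (T y)
    linarith
  have key2 : ‖T‖ ≤ s + ‖T‖ / 2 := by
    refine ContinuousMultilinearMap.opNorm_le_bound (by positivity) fun m => ?_
    by_cases hm : ∃ i, m i = 0
    · obtain ⟨i, hi⟩ := hm
      rw [T.map_coord_zero i hi, norm_zero]
      positivity
    push Not at hm
    have h2 : m = fun i => ‖m i‖ • (‖m i‖⁻¹ • m i) := by
      funext i
      rw [smul_smul, mul_inv_cancel₀ (norm_ne_zero_iff.2 (hm i)), one_smul]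
    have h3 : T m = (∏ i, ‖m i‖) * T (fun i => ‖m i‖⁻¹ • m i) := by
      conv_lhs => rw [h2]
      have := T.toMultilinearMap.map_smul_univ (fun i => ‖m i‖) (fun i => ‖m i‖⁻¹ • m i)
      simpa using this
    rw [h3, norm_mul, Real.norm_eq_abs, Real.norm_eq_abs,
      abs_of_nonneg (Finset.prod_nonneg fun _ _ => norm_nonneg _), mul_comm]
    refine mul_le_mul_of_nonneg_right ?_ (Finset.prod_nonneg fun _ _ => norm_nonneg _)
    apply key
    intro i
    rw [norm_smul, norm_inv, norm_norm, inv_mul_cancel₀ (norm_ne_zero_iff.2 (hm i))]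
  linarith

end bound

lemma num_bound : (33 : ℝ) ^ 8 * exp (-50) ≤ 1 / 100 := by
  have h1 : (2.7 : ℝ) ^ 50 ≤ exp 50 := by
    have h2 : (2.7 : ℝ) ≤ exp 1 := by
      have := Real.exp_one_gt_d9
      linarith
    calc (2.7 : ℝ) ^ 50 ≤ (exp 1) ^ 50 := pow_le_pow_left₀ (by norm_num) h2 50
      _ = exp 50 := by rw [← Real.exp_nat_mul]; norm_num
  rw [Real.exp_neg, ← div_eq_mul_inv, div_le_iff₀ (exp_pos _)]
  have h3 : (33 : ℝ) ^ 8 ≤ 1 / 100 * (2.7 : ℝ) ^ 50 := by norm_num
  linarith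

/-- With large probability the random form has norm at most `20 √n`. -/
theorem norm_bound (n : ℕ) :
    stdGaussian (VE n) {t | 20 * √n < ‖Tm t‖} ≤ ENNReal.ofReal (2 * (1 / 100) ^ n) := by
  classical
  obtain ⟨𝒩, h1, h2, h3⟩ := exists_net (W := HE n) {x | ‖x‖ ≤ 1} (fun x hx => hx)
    (by norm_num : (0 : ℝ) < 1 / 16)
  have hcard : (𝒩.card : ℝ) ≤ 33 ^ n := by
    rw [finrank_euclideanSpace, Fintype.card_fin] at h2
    norm_num at h2 ⊢
    exact h2
  set s : ℝ := 10 * √n with hs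
  have hs0 : 0 ≤ s := by positivity
  have hsub : {t : VE n | 20 * √n < ‖Tm t‖} ⊆
      ⋃ y ∈ Fintype.piFinset (fun _ : Fin 8 => 𝒩), {t : VE n | s ≤ |⟪ten y, t⟫|} := by
    intro t ht
    by_contra hc
    simp only [Set.mem_iUnion, not_exists, Fintype.mem_piFinset, Set.mem_ofPred_eq, not_le] at hc
    have := opNorm_le_of_net (Tm t) 𝒩 (fun x hx => h3 x hx) (fun y hy => h1 y hy) hs0
      (fun y hy => by rw [Tm_eq_inner]; exact (hc y hy).le)
    have ht' : 20 * √n < ‖Tm t‖ := ht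
    linarith
  refine (measure_mono hsub).trans ((measure_biUnion_finset_le _ _).trans ?_)
  calc ∑ y ∈ Fintype.piFinset (fun _ : Fin 8 => 𝒩), stdGaussian (VE n) {t : VE n | s ≤ |⟪ten y, t⟫|}
      ≤ ∑ y ∈ Fintype.piFinset (fun _ : Fin 8 => 𝒩), ENNReal.ofReal (2 * exp (-s ^ 2 / 2)) := by
        refine Finset.sum_le_sum fun y hy => tail_abs _ ?_ hs0
        rw [norm_ten]
        exact Finset.prod_le_one (fun _ _ => norm_nonneg _)
          fun i _ => h1 _ (Fintype.mem_piFinset.1 hy i)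
    _ = ENNReal.ofReal ((𝒩.card : ℝ) ^ 8 * (2 * exp (-s ^ 2 / 2))) := by
        rw [Finset.sum_const, Fintype.card_piFinset]
        simp only [Finset.prod_const, Finset.card_univ, Fintype.card_fin, nsmul_eq_mul]
        rw [← Nat.cast_pow, ENNReal.ofReal_mul (p := ((𝒩.card ^ 8 : ℕ) : ℝ)) (Nat.cast_nonneg _),
          ENNReal.ofReal_natCast]
    _ ≤ ENNReal.ofReal (2 * (1 / 100) ^ n) := by
        apply ENNReal.ofReal_le_ofReal
        have e1 : s ^ 2 = 100 * n := by
          rw [hs, mul_pow, Real.sq_sqrt (by positivity)]; norm_num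
        have e2 : exp (-s ^ 2 / 2) = exp (-50) ^ n := by
          rw [e1, ← Real.exp_nat_mul]; congr 1; ring
        rw [e2]
        calc (𝒩.card : ℝ) ^ 8 * (2 * exp (-50) ^ n) ≤ (33 ^ n) ^ 8 * (2 * exp (-50) ^ n) := by
              gcongr
          _ = 2 * (33 ^ 8 * exp (-50)) ^ n := by
              rw [mul_pow, ← pow_mul, ← pow_mul, mul_comm n 8]; ring
          _ ≤ 2 * (1 / 100) ^ n := by
              gcongr
              exact num_bound

end H811
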